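import Mathlib

/-!
# Padé–Belyi maps

`x ↦ x ^ (r1 + ri + 1) A(x) / B(x)`, with `B - x ^ (r1 + ri + 1) A = (1 - x) ^ (r0 + ri + 1) C`.
-/

set_option autoImplicit false

namespace Pool.Agent.H34x.SL

open Polynomial

/-- polynomials with given coefficients -/
noncomputable def toP (n : ℕ) : (Fin n → ℤ) →ₗ[ℤ] ℤ[X] :=
  (degreeLT ℤ n).subtype ∘ₗ (degreeLTEquiv ℤ n).symm.toLinearMap

theorem toP_inj (n : ℕ) : Function.Injective (toP n) := by
  unfold toP
  simp only [LinearMap.coe_comp, LinearEquiv.coe_coe]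
  exact (Submodule.injective_subtype _).comp (degreeLTEquiv ℤ n).symm.injective

theorem toP_deg (n : ℕ) (a : Fin (n + 1) → ℤ) : (toP (n + 1) a).natDegree ≤ n := by
  have h : toP (n + 1) a ∈ degreeLT ℤ (n + 1) := by
    unfold toP
    simp
  rw [mem_degreeLT] at h
  exact Nat.lt_succ_iff.1 (by
    by_cases h0 : toP (n + 1) a = 0
    · simp [h0]
    · exact (natDegree_lt_iff_degree_lt h0).2 (by exact_mod_cast h))

theorem natDegree_one_sub : (1 - X : ℤ[X]).natDegree = 1 := by
  have : (1 - X : ℤ[X]) = -(X - C 1) := by simp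
  rw [this, natDegree_neg, natDegree_X_sub_C]

theorem one_sub_ne : (1 - X : ℤ[X]) ≠ 0 := by
  intro h
  have := natDegree_one_sub
  rw [h] at this
  simp at this

theorem exists_AC (r0 r1 ri : ℕ) : ∃ A D : ℤ[X], (A ≠ 0 ∨ D ≠ 0) ∧ A.natDegree ≤ r0 ∧
    D.natDegree ≤ r1 ∧
    (X ^ (r1 + ri + 1) * A + (1 - X) ^ (r0 + ri + 1) * D).natDegree ≤ ri := by
  let Φ : ((Fin (r0 + 1) ⊕ Fin (r1 + 1)) → ℤ) →ₗ[ℤ] (Fin (r0 + r1 + 1) → ℤ) :=
    LinearMap.pi fun i => (lcoeff ℤ (ri + 1 + i)) ∘ₗ
      ((LinearMap.mulLeft ℤ (X ^ (r1 + ri + 1))) ∘ₗ (toP (r0 + 1)) ∘ₗ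
        (LinearMap.funLeft ℤ ℤ Sum.inl) +
      (LinearMap.mulLeft ℤ ((1 - X) ^ (r0 + ri + 1))) ∘ₗ (toP (r1 + 1)) ∘ₗ
        (LinearMap.funLeft ℤ ℤ Sum.inr))
  have hni : ¬ Function.Injective Φ := by
    intro h
    have := card_le_of_injective ℤ Φ h
    simp at this
    omega
  rw [← LinearMap.ker_eq_bot] at hni
  obtain ⟨a, ha, ha0⟩ := (Submodule.ne_bot_iff _).1 hni
  rw [LinearMap.mem_ker] at ha
  refine ⟨toP (r0 + 1) (LinearMap.funLeft ℤ ℤ Sum.inl a),
    toP (r1 + 1) (LinearMap.funLeft ℤ ℤ Sum.inr a), ?_, toP_deg _ _, toP_deg _ _, ?_⟩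
  · by_contra h
    push Not at h
    apply ha0
    have h1 : LinearMap.funLeft ℤ ℤ Sum.inl a = 0 := toP_inj _ (by rw [h.1, map_zero])
    have h2 : LinearMap.funLeft ℤ ℤ Sum.inr a = 0 := toP_inj _ (by rw [h.2, map_zero])
    ext i
    rcases i with i | i
    · exact congrFun h1 i
    · exact congrFun h2 i
  · rw [natDegree_le_iff_coeff_eq_zero]
    intro N hN
    have hd : (X ^ (r1 + ri + 1) * toP (r0 + 1) (LinearMap.funLeft ℤ ℤ Sum.inl a) +
        (1 - X) ^ (r0 + ri + 1) * toP (r1 + 1) (LinearMap.funLeft ℤ ℤ Sum.inr a)).natDegree ≤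
        r0 + r1 + ri + 1 := by
      apply natDegree_add_le_of_degree_le
      · refine natDegree_mul_le.trans ?_
        have := toP_deg r0 (LinearMap.funLeft ℤ ℤ Sum.inl a)
        rw [natDegree_X_pow]
        omega
      · refine natDegree_mul_le.trans ?_
        have := toP_deg r1 (LinearMap.funLeft ℤ ℤ Sum.inr a)
        rw [natDegree_pow, natDegree_one_sub]
        omega
    by_cases hN2 : r0 + r1 + ri + 1 < N
    · exact coeff_eq_zero_of_natDegree_lt (lt_of_le_of_lt hd hN2)
    · have h3 := congrFun ha ⟨N - (ri + 1), by omega⟩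
      have h4 : ri + 1 + (N - (ri + 1)) = N := by omega
      simp only [Φ, LinearMap.pi_apply, LinearMap.comp_apply, LinearMap.add_apply,
        LinearMap.mulLeft_apply, lcoeff_apply, h4, Pi.zero_apply] at h3
      exact h3

/-- the key properties -/
theorem pade (r0 r1 ri : ℕ) : ∃ A B D : ℤ[X], A.natDegree = r0 ∧ B.natDegree = ri ∧
    D.natDegree ≤ r1 ∧ A ≠ 0 ∧ B ≠ 0 ∧
    X ^ (r1 + ri + 1) * A + (1 - X) ^ (r0 + ri + 1) * D = B ∧
    IsCoprime ((X ^ (r1 + ri + 1) * A).map (Int.castRingHom ℚ)) (B.map (Int.castRingHom ℚ)) := by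
  obtain ⟨A, D, hAD, hA, hD, hB⟩ := exists_AC r0 r1 ri
  set a := r1 + ri with ha
  set b := r0 + ri with hb
  set F := X ^ (a + 1) * A with hF
  set G := (1 - X) ^ (b + 1) * D with hG
  set B := F + G with hBdef
  have hX : (X : ℤ[X]) ≠ 0 := X_ne_zero
  -- degrees of F and G
  have hFd : A ≠ 0 → F.natDegree = a + 1 + A.natDegree := fun h => by
    rw [hF, natDegree_mul (pow_ne_zero _ hX) h, natDegree_X_pow]
  have hGd : D ≠ 0 → G.natDegree = b + 1 + D.natDegree := fun h => by
    rw [hG, natDegree_mul (pow_ne_zero _ one_sub_ne) h, natDegree_pow, natDegree_one_sub, mul_one]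
  have hA0 : A ≠ 0 := by
    intro h
    have hD0 : D ≠ 0 := by
      rcases hAD with h' | h'
      · exact absurd h h'
      · exact h'
    have h1 : F = 0 := by rw [hF, h, mul_zero]
    rw [hBdef, h1, zero_add, hGd hD0] at hB
    omega
  have hD0 : D ≠ 0 := by
    intro h
    have h1 : G = 0 := by rw [hG, h, mul_zero]
    rw [hBdef, h1, add_zero, hFd hA0] at hB
    omega
  have hF0 : F ≠ 0 := mul_ne_zero (pow_ne_zero _ hX) hA0
  have hcop : IsCoprime (X : ℤ[X]) (1 - X) := ⟨1, 1, by ring⟩
  have hB0 : B ≠ 0 := by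
    intro h
    have h1 : F = -G := eq_neg_of_add_eq_zero_left (hBdef ▸ h)
    have h2 : (X : ℤ[X]) ^ (a + 1) ∣ D := by
      have h3 : (X : ℤ[X]) ^ (a + 1) ∣ (1 - X) ^ (b + 1) * D := by
        rw [← dvd_neg, ← hG, ← h1]
        exact Dvd.intro _ rfl
      exact (hcop.pow).dvd_of_dvd_mul_left h3
    have h4 := natDegree_le_of_dvd h2 hD0
    rw [natDegree_X_pow] at h4
    omega
  -- the Wronskian
  set W := derivative F * B - F * derivative B with hW
  have hW2 : W = derivative F * G - F * derivative G := by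
    rw [hW, hBdef, derivative_add]
    ring
  have hF' : derivative F = X ^ a * (((a + 1 : ℕ) : ℤ[X]) * A + X * derivative A) := by
    rw [hF, derivative_mul, derivative_X_pow]
    push_cast
    simp only [Nat.add_sub_cancel, map_add, map_natCast, map_one]
    ring
  have hG' : derivative G = (1 - X) ^ b * (-(((b + 1 : ℕ) : ℤ[X])) * D + (1 - X) * derivative D) := by
    rw [hG, derivative_mul, derivative_pow]
    simp only [derivative_sub, derivative_one, derivative_X, Nat.add_sub_cancel, map_natCast]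
    push_cast
    ring
  have hWX : X ^ a ∣ W := by
    rw [hW, hF', hF]
    refine dvd_sub (Dvd.dvd.mul_right (Dvd.intro _ rfl) _) (Dvd.dvd.mul_right ?_ _)
    rw [pow_succ, mul_assoc]
    exact Dvd.intro _ rfl
  have hW1 : (1 - X) ^ b ∣ W := by
    rw [hW2, hG', hG]
    refine dvd_sub (Dvd.dvd.mul_left ?_ _) (Dvd.dvd.mul_left (Dvd.intro _ rfl) _)
    rw [pow_succ, mul_assoc]
    exact Dvd.intro _ rfl
  obtain ⟨V, hV⟩ := (hcop.pow (m := a) (n := b)).mul_dvd hWX hW1
  -- the coefficient of the Wronskian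
  have hFB : B.natDegree < F.natDegree := by
    rw [hFd hA0]
    omega
  have hWc : W.coeff (F.natDegree + B.natDegree - 1) ≠ 0 := by
    have h1 : (derivative F * B).coeff ((F.natDegree - 1) + B.natDegree) =
        (F.natDegree : ℤ) * F.leadingCoeff * B.leadingCoeff := by
      rw [coeff_mul_add_eq_of_natDegree_le (natDegree_derivative_le F) le_rfl, coeff_derivative]
      have : F.natDegree - 1 + 1 = F.natDegree := by omega
      rw [this, coeff_natDegree, coeff_natDegree]
      have h2 : ((F.natDegree - 1 : ℕ) : ℤ) + 1 = F.natDegree := by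
        have := this
        omega
      rw [h2]
      ring
    have h2 : (F * derivative B).coeff (F.natDegree + B.natDegree - 1) =
        (B.natDegree : ℤ) * F.leadingCoeff * B.leadingCoeff := by
      rcases Nat.eq_zero_or_pos B.natDegree with hz | hz
      · rw [eq_C_of_natDegree_eq_zero hz]
        simp
      · have h3 : F.natDegree + B.natDegree - 1 = F.natDegree + (B.natDegree - 1) := by omega
        rw [h3, coeff_mul_add_eq_of_natDegree_le le_rfl (natDegree_derivative_le B), coeff_derivative]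
        have : B.natDegree - 1 + 1 = B.natDegree := by omega
        rw [this, coeff_natDegree, coeff_natDegree]
        have h2 : ((B.natDegree - 1 : ℕ) : ℤ) + 1 = B.natDegree := by omega
        rw [h2]
        ring
    have h3 : F.natDegree + B.natDegree - 1 = F.natDegree - 1 + B.natDegree := by omega
    rw [hW, coeff_sub, h2, h3, h1]
    have h4 : ((F.natDegree : ℤ) * F.leadingCoeff * B.leadingCoeff -
        (B.natDegree : ℤ) * F.leadingCoeff * B.leadingCoeff) =
        ((F.natDegree : ℤ) - B.natDegree) * (F.leadingCoeff * B.leadingCoeff) := by ring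
    rw [h4]
    refine mul_ne_zero ?_ (mul_ne_zero (leadingCoeff_ne_zero.2 hF0) (leadingCoeff_ne_zero.2 hB0))
    have : (B.natDegree : ℤ) < F.natDegree := by exact_mod_cast hFB
    omega
  have hW0 : W ≠ 0 := by
    intro h
    rw [h] at hWc
    exact hWc (coeff_zero _)
  have hV0 : V ≠ 0 := by
    rintro rfl
    rw [mul_zero] at hV
    exact hW0 hV
  have hWd : W.natDegree = a + b + V.natDegree := by
    rw [hV, natDegree_mul (mul_ne_zero (pow_ne_zero _ hX) (pow_ne_zero _ one_sub_ne)) hV0,
      natDegree_mul (pow_ne_zero _ hX) (pow_ne_zero _ one_sub_ne), natDegree_X_pow, natDegree_pow,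
      natDegree_one_sub, mul_one]
  have hWle : W.natDegree ≤ F.natDegree + B.natDegree - 1 := by
    rw [hW]
    refine (natDegree_sub_le _ _).trans (max_le ?_ ?_)
    · refine natDegree_mul_le.trans ?_
      have := natDegree_derivative_le F
      omega
    · rcases Nat.eq_zero_or_pos B.natDegree with hz | hz
      · rw [eq_C_of_natDegree_eq_zero hz]
        simp
      · refine natDegree_mul_le.trans ?_
        have := natDegree_derivative_le B
        omega
  have hFd' := hFd hA0
  have hAd : A.natDegree = r0 := by omega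
  have hBd : B.natDegree = ri := by omega
  have hVd : V.natDegree = 0 := by omega
  obtain ⟨c, hc⟩ : ∃ c : ℤ, V = C c := ⟨_, eq_C_of_natDegree_eq_zero hVd⟩
  have hc0 : c ≠ 0 := by
    rintro rfl
    rw [map_zero] at hc
    exact hV0 hc
  refine ⟨A, B, D, hAd, hBd, hD, hA0, hB0, rfl, ?_⟩
  rw [isCoprime_iff_aeval_ne_zero_of_isAlgClosed (k := ℚ) ℂ]
  intro z
  by_contra h
  push Not at h
  obtain ⟨hz1, hz2⟩ := h
  have key : ∀ P : ℤ[X], aeval z (P.map (Int.castRingHom ℚ)) = aeval z P := by
    intro P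
    rw [aeval_def, eval₂_map, aeval_def]
    congr 1
  rw [key] at hz1 hz2
  have hWz : aeval z W = 0 := by
    rw [hW, map_sub, map_mul (aeval z) (derivative F) B, map_mul (aeval z) F (derivative B), hz1, hz2]
    ring
  rw [hV, hc, map_mul, map_mul, map_pow, map_pow, map_sub, aeval_X, map_one, aeval_C] at hWz
  have hcz : (algebraMap ℤ ℂ) c ≠ 0 := by
    simpa using hc0
  rcases mul_eq_zero.1 hWz with hWz | hWz
  · rcases mul_eq_zero.1 hWz with hWz | hWz
    · -- z = 0
      have hz : z = 0 := eq_zero_of_pow_eq_zero hWz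
      · subst hz
        have h1 : X ∣ B := by
          rw [X_dvd_iff]
          have : (aeval (0 : ℂ)) B = ((B.coeff 0 : ℤ) : ℂ) := by
            rw [aeval_def, eval₂_at_zero]
            simp
          rw [this] at hz2
          exact_mod_cast hz2
        have h2 : X ^ (a + 1) ∣ W := by
          rw [hW, hF', hF]
          refine dvd_sub ?_ (Dvd.dvd.mul_right (Dvd.intro _ rfl) _)
          rw [pow_succ, mul_assoc]
          exact mul_dvd_mul_left _ (Dvd.dvd.mul_left h1 _)
        rw [hV, pow_succ, mul_assoc] at h2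
        have h3 : X ∣ (1 - X) ^ b * V := (mul_dvd_mul_iff_left (pow_ne_zero _ hX)).1 h2
        have h4 : X ∣ V := (hcop.pow_right).dvd_of_dvd_mul_left h3
        rw [hc, X_dvd_iff, coeff_C_zero] at h4
        exact hc0 h4
    · have hz : 1 - z = 0 := eq_zero_of_pow_eq_zero hWz
      · have hz' : z = 1 := (sub_eq_zero.1 hz).symm
        subst hz'
        have h1 : (1 - X) ∣ F := by
          have h2 : (X - C (1 : ℤ)) ∣ F := by
            rw [dvd_iff_isRoot, IsRoot.def]
            have : (aeval (1 : ℂ)) F = ((F.eval 1 : ℤ) : ℂ) := by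
              rw [aeval_def, eval₂_at_one]
              simp
            rw [this] at hz1
            exact_mod_cast hz1
          have h3 : (1 - X : ℤ[X]) = -(X - C 1) := by simp
          rw [h3, neg_dvd]
          exact h2
        have h2 : (1 - X) ^ (b + 1) ∣ W := by
          rw [hW2, hG', hG]
          refine dvd_sub (Dvd.dvd.mul_left (Dvd.intro _ rfl) _) ?_
          rw [pow_succ, mul_comm F, mul_assoc, mul_comm _ F]
          exact mul_dvd_mul_left _ (Dvd.dvd.mul_right h1 _)
        rw [hV, mul_comm (X ^ a), pow_succ, mul_assoc] at h2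
        have h3 : (1 - X) ∣ X ^ a * V :=
          (mul_dvd_mul_iff_left (pow_ne_zero _ one_sub_ne)).1 h2
        have h4 : (1 - X) ∣ V := (hcop.symm.pow_right).dvd_of_dvd_mul_left h3
        rw [hc] at h4
        have h5 := natDegree_le_of_dvd h4 (by simpa using hc0)
        rw [natDegree_one_sub, natDegree_C] at h5
        omega
  · exact hcz hWz

end Pool.Agent.H34x.SL
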