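import Mathlib

/-!
# Local estimates for the values of integer polynomials
-/

set_option autoImplicit false

namespace Pool.Agent.H34x.SL

open Polynomial

/-- the sum of the absolute values of the coefficients, at least one -/
noncomputable def L1 (P : ℤ[X]) : ℝ := 1 + ∑ i ∈ Finset.range (P.natDegree + 1), |(P.coeff i : ℝ)|

theorem one_le_L1 (P : ℤ[X]) : 1 ≤ L1 P := by
  unfold L1
  have : 0 ≤ ∑ i ∈ Finset.range (P.natDegree + 1), |(P.coeff i : ℝ)| :=
    Finset.sum_nonneg fun i _ => abs_nonneg _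
  linarith

variable {K : Type*} [Field K]

theorem abv_nat (v : AbsoluteValue K ℝ) (n : ℕ) : v (n : K) ≤ n := by
  induction n with
  | zero => simp
  | succ n ih =>
    push_cast
    refine (v.add_le _ _).trans ?_
    rw [map_one]
    linarith

theorem abv_int (v : AbsoluteValue K ℝ) (n : ℤ) : v (n : K) ≤ |(n : ℝ)| := by
  obtain ⟨m, rfl | rfl⟩ := n.eq_nat_or_neg
  · push_cast
    rw [Nat.abs_cast]
    exact abv_nat v _
  · push_cast
    rw [v.map_neg, abs_neg, Nat.abs_cast]
    exact abv_nat v _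

theorem aeval_le (v : AbsoluteValue K ℝ) (P : ℤ[X]) {N : ℕ} (hN : P.natDegree ≤ N) (x : K) :
    v (aeval x P) ≤ L1 P * (max 1 (v x)) ^ N := by
  rw [aeval_eq_sum_range]
  have h1 : v (∑ i ∈ Finset.range (P.natDegree + 1), P.coeff i • x ^ i) ≤
      ∑ i ∈ Finset.range (P.natDegree + 1), |(P.coeff i : ℝ)| * (max 1 (v x)) ^ N := by
    refine (v.sum_le _ _).trans (Finset.sum_le_sum fun i hi => ?_)
    rw [zsmul_eq_mul, v.map_mul, v.map_pow]
    have h2 : (v x) ^ i ≤ (max 1 (v x)) ^ N :=
      (pow_le_pow_left₀ (apply_nonneg v x) (le_max_right _ _) i).trans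
        (pow_le_pow_right₀ (le_max_left _ _) (by
          have := Finset.mem_range.1 hi
          omega))
    exact mul_le_mul (abv_int v _) h2 (pow_nonneg (apply_nonneg v x) _) (abs_nonneg _)
  refine h1.trans ?_
  rw [← Finset.sum_mul]
  apply mul_le_mul_of_nonneg_right _ (pow_nonneg (zero_le_one.trans (le_max_left _ _)) _)
  unfold L1
  linarith

theorem na_sum {v : AbsoluteValue K ℝ} (hv : IsNonarchimedean v) {ι : Type*} (s : Finset ι)
    (f : ι → K) {M : ℝ} (hM : 0 ≤ M) (h : ∀ i ∈ s, v (f i) ≤ M) : v (∑ i ∈ s, f i) ≤ M := by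
  classical
  induction s using Finset.induction_on with
  | empty => simpa using hM
  | insert a s ha ih =>
    rw [Finset.sum_insert ha]
    refine (hv _ _).trans (max_le (h a (Finset.mem_insert_self _ _)) ?_)
    exact ih fun i hi => h i (Finset.mem_insert_of_mem hi)

theorem na_aeval_le {v : AbsoluteValue K ℝ} (hv : IsNonarchimedean v) (P : ℤ[X]) {N : ℕ}
    (hN : P.natDegree ≤ N) (x : K) : v (aeval x P) ≤ (max 1 (v x)) ^ N := by
  rw [aeval_eq_sum_range]
  apply na_sum hv _ _ (pow_nonneg (zero_le_one.trans (le_max_left _ _)) _)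
  intro i hi
  rw [zsmul_eq_mul, v.map_mul, v.map_pow]
  have h2 : (v x) ^ i ≤ (max 1 (v x)) ^ N :=
    (pow_le_pow_left₀ (apply_nonneg v x) (le_max_right _ _) i).trans
      (pow_le_pow_right₀ (le_max_left _ _) (by
        have := Finset.mem_range.1 hi
        omega))
  calc v (P.coeff i : K) * (v x) ^ i ≤ 1 * (max 1 (v x)) ^ N :=
        mul_le_mul hv.apply_intCast_le_one h2 (pow_nonneg (apply_nonneg v x) _) zero_le_one
    _ = _ := one_mul _

/-- Bezout over the integers -/
theorem bezout {F B : ℤ[X]}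
    (h : IsCoprime (F.map (Int.castRingHom ℚ)) (B.map (Int.castRingHom ℚ))) :
    ∃ (u w : ℤ[X]) (R : ℤ), R ≠ 0 ∧ u * F + w * B = C R := by
  obtain ⟨u0, w0, h0⟩ := h
  obtain ⟨b, hb0, hb⟩ := IsLocalization.integerNormalization_spec (nonZeroDivisors ℤ) u0
  obtain ⟨b', hb0', hb'⟩ := IsLocalization.integerNormalization_spec (nonZeroDivisors ℤ) w0
  set u1 := IsLocalization.integerNormalization (nonZeroDivisors ℤ) u0
  set w1 := IsLocalization.integerNormalization (nonZeroDivisors ℤ) w0
  refine ⟨C (b' : ℤ) * u1, C (b : ℤ) * w1, b * b', mul_ne_zero (nonZeroDivisors.ne_zero hb0)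
    (nonZeroDivisors.ne_zero hb0'), ?_⟩
  apply Polynomial.map_injective (Int.castRingHom ℚ) Int.cast_injective
  have e1 : u1.map (Int.castRingHom ℚ) = (b : ℤ) • u0 := by
    rw [← hb]
    rfl
  have e2 : w1.map (Int.castRingHom ℚ) = (b' : ℤ) • w0 := by
    rw [← hb']
    rfl
  rw [Polynomial.map_add, Polynomial.map_mul, Polynomial.map_mul, Polynomial.map_mul,
    Polynomial.map_mul, e1, e2, map_C, map_C, map_C]
  have h3 : (C ((Int.castRingHom ℚ) (b' : ℤ)) : ℚ[X]) * ((b : ℤ) • u0) * F.map (Int.castRingHom ℚ) +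
      C ((Int.castRingHom ℚ) (b : ℤ)) * ((b' : ℤ) • w0) * B.map (Int.castRingHom ℚ) =
      C ((Int.castRingHom ℚ) (b : ℤ)) * C ((Int.castRingHom ℚ) (b' : ℤ)) *
        (u0 * F.map (Int.castRingHom ℚ) + w0 * B.map (Int.castRingHom ℚ)) := by
    rw [zsmul_eq_mul, zsmul_eq_mul]
    have e3 : ((b : ℤ) : ℚ[X]) = C ((Int.castRingHom ℚ) (b : ℤ)) := by simp
    have e4 : ((b' : ℤ) : ℚ[X]) = C ((Int.castRingHom ℚ) (b' : ℤ)) := by simp
    rw [e3, e4]
    ring
  rw [h3, h0, mul_one, map_mul, C_mul]

/-- the reflected polynomials are coprime -/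
theorem coprime_reflect {F B : ℤ[X]} {k : ℕ} (hF : F.natDegree = k) (hB : B.natDegree ≤ k)
    (hF0 : F ≠ 0)
    (h : IsCoprime (F.map (Int.castRingHom ℚ)) (B.map (Int.castRingHom ℚ))) :
    IsCoprime ((reflect k F).map (Int.castRingHom ℚ)) ((reflect k B).map (Int.castRingHom ℚ)) := by
  rw [isCoprime_iff_aeval_ne_zero_of_isAlgClosed (k := ℚ) ℂ] at h ⊢
  intro z
  have key : ∀ (y : ℂ) (P : ℤ[X]), aeval y (P.map (Int.castRingHom ℚ)) =
      eval₂ (Int.castRingHom ℂ) y P := by
    intro y P
    rw [aeval_def, eval₂_map]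
    congr 1
  simp only [key] at h ⊢
  by_cases hz : z = 0
  · left
    rw [hz, eval₂_at_zero, coeff_reflect, revAt_zero, ← hF, coeff_natDegree]
    simpa using hF0
  · have hu : Invertible z⁻¹ := invertibleOfNonzero (inv_ne_zero hz)
    have e : ⅟(z⁻¹) = z := by
      rw [invOf_eq_inv, inv_inv]
    have hr : ∀ P : ℤ[X], P.natDegree ≤ k →
        eval₂ (Int.castRingHom ℂ) z (reflect k P) * (z⁻¹) ^ k =
          eval₂ (Int.castRingHom ℂ) z⁻¹ P := by
      intro P hP
      have := eval₂_reflect_mul_pow (Int.castRingHom ℂ) z⁻¹ k P hP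
      rwa [e] at this
    rcases h z⁻¹ with h | h
    · left
      intro h'
      apply h
      rw [← hr F hF.le, h', zero_mul]
    · right
      intro h'
      apply h
      rw [← hr B hB, h', zero_mul]

/-- the local lower bound -/
theorem lower {F B : ℤ[X]} {k : ℕ} (hF : F.natDegree = k) (hB : B.natDegree ≤ k) (hF0 : F ≠ 0)
    (h : IsCoprime (F.map (Int.castRingHom ℚ)) (B.map (Int.castRingHom ℚ))) :
    ∃ (R : ℤ) (L : ℝ), R ≠ 0 ∧ 1 ≤ L ∧ ∀ (K : Type) [Field K] (x : K),
      (∀ v : AbsoluteValue K ℝ, (∀ n : ℤ, v (n : K) = |(n : ℝ)|) →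
        (max 1 (v x)) ^ k ≤ L * max (v (aeval x F)) (v (aeval x B))) ∧
      (∀ v : AbsoluteValue K ℝ, IsNonarchimedean v →
        v (R : K) * (max 1 (v x)) ^ k ≤ max (v (aeval x F)) (v (aeval x B))) := by
  obtain ⟨u, w, R, hR, hb⟩ := bezout h
  obtain ⟨u', w', R', hR', hb'⟩ := bezout (coprime_reflect hF hB hF0 h)
  refine ⟨R * R', L1 u + L1 w + L1 u' + L1 w', mul_ne_zero hR hR', ?_, ?_⟩
  · linarith [one_le_L1 u, one_le_L1 w, one_le_L1 u', one_le_L1 w']
  intro K _ x
  have e1 : aeval x u * aeval x F + aeval x w * aeval x B = (R : K) := by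
    have := congrArg (aeval x) hb
    rw [map_add, map_mul, map_mul, aeval_C] at this
    simpa using this
  have e2 : x ≠ 0 → aeval x⁻¹ u' * ((x⁻¹) ^ k * aeval x F) +
      aeval x⁻¹ w' * ((x⁻¹) ^ k * aeval x B) = (R' : K) := by
    intro hx
    have := congrArg (aeval x⁻¹) hb'
    rw [map_add, map_mul, map_mul, aeval_C] at this
    have hu : Invertible x := invertibleOfNonzero hx
    have hr : ∀ P : ℤ[X], P.natDegree ≤ k →
        aeval x⁻¹ (reflect k P) = (x⁻¹) ^ k * aeval x P := by
      intro P hP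
      have h5 := eval₂_reflect_mul_pow (algebraMap ℤ K) x k P hP
      rw [invOf_eq_inv] at h5
      rw [aeval_def, aeval_def, ← h5, mul_comm, mul_assoc, ← mul_pow, mul_inv_cancel₀ hx, one_pow,
        mul_one]
    rw [hr F hF.le, hr B hB] at this
    simpa using this
  have L1u := one_le_L1 u
  have L1w := one_le_L1 w
  have L1u' := one_le_L1 u'
  have L1w' := one_le_L1 w'
  constructor
  · intro v hv
    set M := max (v (aeval x F)) (v (aeval x B)) with hM
    have hM0 : 0 ≤ M := (apply_nonneg v _).trans (le_max_left _ _)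
    rcases le_or_gt (v x) 1 with hx | hx
    · rw [max_eq_left hx, one_pow]
      have h1 : (1 : ℝ) ≤ v (R : K) := by
        rw [hv]
        exact_mod_cast Int.one_le_abs hR
      rw [← e1] at h1
      have h2 := (v.add_le (aeval x u * aeval x F) (aeval x w * aeval x B))
      rw [v.map_mul, v.map_mul] at h2
      have h3 : v (aeval x u) ≤ L1 u := by
        have := aeval_le v u le_rfl x
        rwa [max_eq_left hx, one_pow, mul_one] at this
      have h4 : v (aeval x w) ≤ L1 w := by
        have := aeval_le v w le_rfl x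
        rwa [max_eq_left hx, one_pow, mul_one] at this
      have h5 : v (aeval x u) * v (aeval x F) ≤ L1 u * M :=
        mul_le_mul h3 (le_max_left _ _) (apply_nonneg v _) (by linarith)
      have h6 : v (aeval x w) * v (aeval x B) ≤ L1 w * M :=
        mul_le_mul h4 (le_max_right _ _) (apply_nonneg v _) (by linarith)
      nlinarith
    · rw [max_eq_right hx.le]
      have hx0 : x ≠ 0 := by
        rintro rfl
        rw [map_zero] at hx
        linarith
      have hvx : 0 < v x := by linarith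
      have hx' : v x⁻¹ ≤ 1 := by
        rw [map_inv₀]
        exact inv_le_one_of_one_le₀ hx.le
      have h1 : (1 : ℝ) ≤ v (R' : K) := by
        rw [hv]
        exact_mod_cast Int.one_le_abs hR'
      rw [← e2 hx0] at h1
      have h2 := (v.add_le (aeval x⁻¹ u' * ((x⁻¹) ^ k * aeval x F))
        (aeval x⁻¹ w' * ((x⁻¹) ^ k * aeval x B)))
      rw [v.map_mul, v.map_mul, v.map_mul, v.map_mul, map_pow, map_inv₀] at h2
      have h3 : v (aeval x⁻¹ u') ≤ L1 u' := by
        have := aeval_le v u' le_rfl x⁻¹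
        rwa [max_eq_left hx', one_pow, mul_one] at this
      have h4 : v (aeval x⁻¹ w') ≤ L1 w' := by
        have := aeval_le v w' le_rfl x⁻¹
        rwa [max_eq_left hx', one_pow, mul_one] at this
      have hp : 0 < (v x) ^ k := pow_pos hvx k
      have h5 : v (aeval x⁻¹ u') * ((v x)⁻¹ ^ k * v (aeval x F)) ≤ L1 u' * ((v x)⁻¹ ^ k * M) :=
        mul_le_mul h3 (mul_le_mul_of_nonneg_left (le_max_left _ _) (by positivity))
          (mul_nonneg (by positivity) (apply_nonneg v _)) (by linarith)
      have h6 : v (aeval x⁻¹ w') * ((v x)⁻¹ ^ k * v (aeval x B)) ≤ L1 w' * ((v x)⁻¹ ^ k * M) :=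
        mul_le_mul h4 (mul_le_mul_of_nonneg_left (le_max_right _ _) (by positivity))
          (mul_nonneg (by positivity) (apply_nonneg v _)) (by linarith)
      have h7 : 1 ≤ (L1 u' + L1 w') * ((v x)⁻¹ ^ k * M) := by linarith
      have h8 : (v x) ^ k ≤ (L1 u' + L1 w') * M := by
        calc (v x) ^ k = (v x) ^ k * 1 := (mul_one _).symm
          _ ≤ (v x) ^ k * ((L1 u' + L1 w') * ((v x)⁻¹ ^ k * M)) :=
              mul_le_mul_of_nonneg_left h7 hp.le
          _ = (L1 u' + L1 w') * M * ((v x) ^ k * (v x)⁻¹ ^ k) := by ring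
          _ = (L1 u' + L1 w') * M := by
              rw [← mul_pow, mul_inv_cancel₀ hvx.ne', one_pow, mul_one]
      nlinarith
  · intro v hv
    set M := max (v (aeval x F)) (v (aeval x B)) with hM
    have hM0 : 0 ≤ M := (apply_nonneg v _).trans (le_max_left _ _)
    have hR1 : v (R : K) ≤ 1 := hv.apply_intCast_le_one
    have hR1' : v (R' : K) ≤ 1 := hv.apply_intCast_le_one
    push_cast
    rw [v.map_mul]
    rcases le_or_gt (v x) 1 with hx | hx
    · rw [max_eq_left hx, one_pow, mul_one]
      have h3 : v (aeval x u) ≤ 1 := by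
        have := na_aeval_le hv u le_rfl x
        rwa [max_eq_left hx, one_pow] at this
      have h4 : v (aeval x w) ≤ 1 := by
        have := na_aeval_le hv w le_rfl x
        rwa [max_eq_left hx, one_pow] at this
      have h7 : v (R : K) ≤ M := by
        rw [← e1]
        refine (hv _ _).trans (max_le ?_ ?_)
        · rw [v.map_mul]
          calc v (aeval x u) * v (aeval x F) ≤ 1 * M :=
                mul_le_mul h3 (le_max_left _ _) (apply_nonneg v _) zero_le_one
            _ = M := one_mul M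
        · rw [v.map_mul]
          calc v (aeval x w) * v (aeval x B) ≤ 1 * M :=
                mul_le_mul h4 (le_max_right _ _) (apply_nonneg v _) zero_le_one
            _ = M := one_mul M
      calc v (R : K) * v (R' : K) ≤ v (R : K) * 1 :=
            mul_le_mul_of_nonneg_left hR1' (apply_nonneg v _)
        _ ≤ M := by rw [mul_one]; exact h7
    · rw [max_eq_right hx.le]
      have hx0 : x ≠ 0 := by
        rintro rfl
        rw [map_zero] at hx
        linarith
      have hvx : 0 < v x := by linarith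
      have hx' : v x⁻¹ ≤ 1 := by
        rw [map_inv₀]
        exact inv_le_one_of_one_le₀ hx.le
      have hp : 0 < (v x) ^ k := pow_pos hvx k
      have h3 : v (aeval x⁻¹ u') ≤ 1 := by
        have := na_aeval_le hv u' le_rfl x⁻¹
        rwa [max_eq_left hx', one_pow] at this
      have h4 : v (aeval x⁻¹ w') ≤ 1 := by
        have := na_aeval_le hv w' le_rfl x⁻¹
        rwa [max_eq_left hx', one_pow] at this
      have h7 : v (R' : K) ≤ (v x)⁻¹ ^ k * M := by
        rw [← e2 hx0]
        refine (hv _ _).trans (max_le ?_ ?_)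
        · rw [v.map_mul, v.map_mul, map_pow, map_inv₀]
          calc v (aeval x⁻¹ u') * ((v x)⁻¹ ^ k * v (aeval x F)) ≤ 1 * ((v x)⁻¹ ^ k * M) :=
                mul_le_mul h3 (mul_le_mul_of_nonneg_left (le_max_left _ _) (by positivity))
                  (mul_nonneg (by positivity) (apply_nonneg v _)) zero_le_one
            _ = _ := one_mul _
        · rw [v.map_mul, v.map_mul, map_pow, map_inv₀]
          calc v (aeval x⁻¹ w') * ((v x)⁻¹ ^ k * v (aeval x B)) ≤ 1 * ((v x)⁻¹ ^ k * M) :=
                mul_le_mul h4 (mul_le_mul_of_nonneg_left (le_max_right _ _) (by positivity))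
                  (mul_nonneg (by positivity) (apply_nonneg v _)) zero_le_one
            _ = _ := one_mul _
      calc v (R : K) * v (R' : K) * (v x) ^ k ≤ 1 * ((v x)⁻¹ ^ k * M) * (v x) ^ k := by
            apply mul_le_mul_of_nonneg_right _ hp.le
            exact mul_le_mul hR1 h7 (apply_nonneg v _) zero_le_one
        _ = M * ((v x) ^ k * (v x)⁻¹ ^ k) := by ring
        _ = M := by rw [← mul_pow, mul_inv_cancel₀ hvx.ne', one_pow, mul_one]

end Pool.Agent.H34x.SL
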