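import Mathlib
import Pool.Agent.H34x.SL.Pade
import Pool.Agent.H34x.SL.Loc

/-!
# Heights and conductors under Padé–Belyi maps, uniformly in the number field
-/

set_option autoImplicit false

namespace Pool.Agent.H34x.SL

open Polynomial NumberField IsDedekindDomain Height

section

variable {K : Type} [Field K] [NumberField K]

/-- the absolute logarithmic height -/
noncomputable def hh (x : K) : ℝ := logHeight₁ x / (Module.finrank ℚ K : ℝ)

/-- the contribution of the primes at which `x` is small -/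
noncomputable def cn (x : K) : ℝ :=
  (∑ᶠ v : HeightOneSpectrum (𝓞 K),
    if FinitePlace.mk v x < 1 then Real.log (Ideal.absNorm v.asIdeal : ℝ) else 0) /
      (Module.finrank ℚ K : ℝ)

theorem n_pos : 0 < (Module.finrank ℚ K : ℝ) := by
  have : 0 < Module.finrank ℚ K := Module.finrank_pos
  exact_mod_cast this

theorem hh_nonneg (x : K) : 0 ≤ hh x := div_nonneg (zero_le_logHeight₁ x) n_pos.le

theorem sup_two (v : K → ℝ) (a b : K) : (⨆ i, v (![a, b] i)) = max (v a) (v b) := by
  have hb : BddAbove (Set.range fun i => v (![a, b] i)) := Set.finite_range _ |>.bddAbove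
  apply le_antisymm
  · apply ciSup_le
    intro i
    fin_cases i
    · exact le_max_left _ _
    · exact le_max_right _ _
  · exact max_le (le_ciSup hb 0) (le_ciSup hb 1)

theorem sup_three (v : K → ℝ) (a b c : K) :
    (⨆ i, v (![a, b, c] i)) = max (v a) (max (v b) (v c)) := by
  have hb : BddAbove (Set.range fun i => v (![a, b, c] i)) := Set.finite_range _ |>.bddAbove
  apply le_antisymm
  · apply ciSup_le
    intro i
    fin_cases i
    · exact le_max_left _ _
    · exact (le_max_left _ _).trans (le_max_right _ _)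
    · exact (le_max_right _ _).trans (le_max_right _ _)
  · exact max_le (le_ciSup hb 0) (max_le (le_ciSup hb 1) (le_ciSup hb 2))

omit [NumberField K] in
theorem hfms [AdmissibleAbsValues K] {ι : Type} [Finite ι] {x : ι → K} (hx : x ≠ 0) :
    (fun v : AdmissibleAbsValues.nonarchAbsVal (K := K) ↦
      ⨆ i, v.val (x i)).HasFiniteMulSupport := by
  have : Nonempty {j // x j ≠ 0} := nonempty_subtype.mpr <| Function.ne_iff.mp hx
  suffices (fun v : AdmissibleAbsValues.nonarchAbsVal (K := K) ↦
      ⨆ i : {j // x j ≠ 0}, v.val (x i)).HasFiniteMulSupport by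
    convert! this with v
    obtain ⟨i, hi⟩ : ∃ j, x j ≠ 0 := Function.ne_iff.mp hx
    have : Nonempty ι := .intro i
    refine le_antisymm (ciSup_le fun j ↦ ?_) (ciSup_le fun ⟨j, hj⟩ ↦ Finite.le_ciSup_of_le j le_rfl)
    rcases eq_or_ne (x j) 0 with h | h
    · rw [h, v.val.map_zero]
      exact Real.iSup_nonneg' ⟨⟨i, hi⟩, v.val.nonneg ..⟩
    · exact Finite.le_ciSup_of_le ⟨j, h⟩ le_rfl
  fun_prop (disch := grind)

theorem mulHeight_le {ι ι' : Type} [Finite ι] [Finite ι'] {x : ι → K} {y : ι' → K} (hx : x ≠ 0)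
    (hy : y ≠ 0) {c : ℝ} (hc : 0 ≤ c)
    (h1 : ∀ w : InfinitePlace K, (⨆ i, w (x i)) ≤ c * ⨆ i, w (y i))
    (h2 : ∀ v : FinitePlace K, (⨆ i, v (x i)) ≤ ⨆ i, v (y i)) :
    mulHeight x ≤ c ^ (Module.finrank ℚ K) * mulHeight y := by
  rw [NumberField.mulHeight_eq hx, NumberField.mulHeight_eq hy, ← mul_assoc]
  have hi : ∀ (w : InfinitePlace K), 0 ≤ ⨆ i, w (x i) := fun w =>
    Real.iSup_nonneg fun i => apply_nonneg w _
  have hf : ∀ (w : FinitePlace K), 0 ≤ ⨆ i, w (x i) := fun w =>
    Real.iSup_nonneg fun i => apply_nonneg w _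
  have hi' : ∀ (w : InfinitePlace K), 0 ≤ ⨆ i, w (y i) := fun w =>
    Real.iSup_nonneg fun i => apply_nonneg w _
  apply mul_le_mul
  · calc ∏ w : InfinitePlace K, (⨆ i, w (x i)) ^ w.mult ≤
          ∏ w : InfinitePlace K, (c * ⨆ i, w (y i)) ^ w.mult :=
          Finset.prod_le_prod (fun w _ => pow_nonneg (hi w) _)
            fun w _ => pow_le_pow_left₀ (hi w) (h1 w) _
      _ = c ^ (Module.finrank ℚ K) * ∏ w : InfinitePlace K, (⨆ i, w (y i)) ^ w.mult := by
          simp_rw [mul_pow]
          rw [Finset.prod_mul_distrib, Finset.prod_pow_eq_pow_sum, InfinitePlace.sum_mult_eq]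
  · have e1 := hfms hx
    have e2 := hfms hy
    exact finprod_le_finprod e1 (fun v => hf v) e2 fun v => h2 v
  · exact finprod_nonneg fun v => hf v
  · exact mul_nonneg (pow_nonneg hc _) (Finset.prod_nonneg fun w _ => pow_nonneg (hi' w) _)

theorem na (v : FinitePlace K) : IsNonarchimedean v.1 := fun x y => FinitePlace.add_le v x y

omit [NumberField K] in
theorem w_int (w : InfinitePlace K) (n : ℤ) : w.1 (n : K) = |(n : ℝ)| := by
  obtain ⟨φ, hφ⟩ := w.2
  have : w.1 (n : K) = ‖φ (n : K)‖ := by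
    rw [← hφ]
    rfl
  rw [this, map_intCast]
  exact Complex.norm_intCast n

theorem log_le_of {X Y c : ℝ} (hX : 0 < X) (hc : 0 < c) (hY : 0 < Y)
    (h : X ≤ c ^ (Module.finrank ℚ K) * Y) :
    Real.log X / (Module.finrank ℚ K : ℝ) ≤ Real.log Y / (Module.finrank ℚ K : ℝ) + Real.log c := by
  have h1 := Real.log_le_log hX h
  rw [Real.log_mul (pow_pos hc _).ne' hY.ne', Real.log_pow] at h1
  have hn := n_pos (K := K)
  rw [div_add' _ _ _ hn.ne', div_le_div_iff_of_pos_right hn]
  linarith

end

/-- lower bound for the height of the image -/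
theorem hh_lower {F B : ℤ[X]} {k : ℕ} (hF : F.natDegree = k) (hB : B.natDegree ≤ k) (hF0 : F ≠ 0)
    (h : IsCoprime (F.map (Int.castRingHom ℚ)) (B.map (Int.castRingHom ℚ))) :
    ∃ c : ℝ, 0 ≤ c ∧ ∀ (K : Type) [Field K] [NumberField K] (x : K),
      k * hh x ≤ hh (aeval x F / aeval x B) + c := by
  obtain ⟨R, L, hR, hL, hl⟩ := lower hF hB hF0 h
  have hR1 : (1 : ℝ) ≤ |(R : ℝ)| := by exact_mod_cast Int.one_le_abs hR
  have hLR : 1 ≤ |(R : ℝ)| * L := by nlinarith
  refine ⟨Real.log (|(R : ℝ)| * L), Real.log_nonneg hLR, ?_⟩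
  intro K _ _ x
  obtain ⟨h1, h2⟩ := hl K x
  have hRK : (R : K) ≠ 0 := by exact_mod_cast hR
  have hx0 : (![(R : K) * x ^ k, (R : K)] : Fin 2 → K) ≠ 0 := by
    intro h
    exact hRK (by simpa using congrFun h 1)
  have hy0 : (![aeval x F, aeval x B] : Fin 2 → K) ≠ 0 := by
    intro h
    have e1 : aeval x F = 0 := by simpa using congrFun h 0
    have e2 : aeval x B = 0 := by simpa using congrFun h 1
    obtain ⟨v⟩ : Nonempty (InfinitePlace K) := inferInstance
    have := h1 v.1 (w_int v)
    rw [e1, e2, map_zero, max_self, mul_zero] at this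
    have h3 : 1 ≤ (max 1 (v.1 x)) ^ k := one_le_pow₀ (le_max_left _ _)
    linarith
  have hpow : ∀ (t : ℝ), 0 ≤ t → max (t ^ k) 1 = (max 1 t) ^ k := by
    intro t ht
    rcases le_or_gt t 1 with h | h
    · rw [max_eq_right (pow_le_one₀ ht h), max_eq_left h, one_pow]
    · rw [max_eq_left (one_le_pow₀ h.le), max_eq_right h.le]
  have key := mulHeight_le hx0 hy0 (c := |(R : ℝ)| * L) (by linarith) (fun w => by
      rw [sup_two (fun z => w z), sup_two (fun z => w z)]
      have e1 : max (w ((R : K) * x ^ k)) (w (R : K)) = |(R : ℝ)| * (max 1 (w x)) ^ k := by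
        have hw := w_int w R
        have hw' : w (R : K) = |(R : ℝ)| := hw
        rw [map_mul, map_pow, hw', ← hpow _ (apply_nonneg w x),
          mul_max_of_nonneg _ _ (abs_nonneg _), mul_one]
      rw [e1, mul_assoc]
      exact mul_le_mul_of_nonneg_left (h1 w.1 (w_int w)) (abs_nonneg _)) (fun v => by
      rw [sup_two (fun z => v z), sup_two (fun z => v z)]
      have e1 : max (v ((R : K) * x ^ k)) (v (R : K)) = v (R : K) * (max 1 (v x)) ^ k := by
        rw [map_mul, map_pow, ← hpow _ (apply_nonneg v x),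
          mul_max_of_nonneg _ _ (apply_nonneg v _), mul_one]
      rw [e1]
      exact h2 v.1 (na v))
  have e3 : mulHeight ![(R : K) * x ^ k, (R : K)] = mulHeight₁ x ^ k := by
    rw [← mulHeight₁_pow, ← mulHeight₁_div_eq_mulHeight, mul_div_cancel_left₀ _ hRK]
  have e4 : mulHeight ![aeval x F, aeval x B] = mulHeight₁ (aeval x F / aeval x B) :=
    (mulHeight₁_div_eq_mulHeight _ _).symm
  rw [e3, e4] at key
  have h5 := log_le_of (K := K) (pow_pos (mulHeight₁_pos x) k) (by linarith)
    (mulHeight₁_pos (aeval x F / aeval x B)) key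
  rw [Real.log_pow] at h5
  unfold hh
  rw [logHeight₁_eq_log_mulHeight₁, logHeight₁_eq_log_mulHeight₁, ← mul_div_assoc]
  exact h5

section

variable {K : Type} [Field K] [NumberField K]

/-- upper bound for the height of the value of a polynomial -/
theorem hh_upper (P : ℤ[X]) {N : ℕ} (hN : P.natDegree ≤ N) (x : K) :
    hh (aeval x P) ≤ N * hh x + Real.log (L1 P) := by
  have hL := one_le_L1 P
  have hx0 : (![aeval x P, 1] : Fin 2 → K) ≠ 0 := by
    intro h
    exact one_ne_zero (by simpa using congrFun h 1 : (1 : K) = 0)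
  have hy0 : (![x ^ N, 1] : Fin 2 → K) ≠ 0 := by
    intro h
    exact one_ne_zero (by simpa using congrFun h 1 : (1 : K) = 0)
  have hpow : ∀ (t : ℝ), 0 ≤ t → max (t ^ N) 1 = (max 1 t) ^ N := by
    intro t ht
    rcases le_or_gt t 1 with h | h
    · rw [max_eq_right (pow_le_one₀ ht h), max_eq_left h, one_pow]
    · rw [max_eq_left (one_le_pow₀ h.le), max_eq_right h.le]
  have key := mulHeight_le hx0 hy0 (c := L1 P) (by linarith) (fun w => by
      rw [sup_two (fun z => w z), sup_two (fun z => w z), map_pow, map_one,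
        hpow _ (apply_nonneg w x)]
      have h1 : 1 ≤ (max 1 (w x)) ^ N := one_le_pow₀ (le_max_left _ _)
      refine max_le (aeval_le w.1 P hN x) ?_
      nlinarith) (fun v => by
      rw [sup_two (fun z => v z), sup_two (fun z => v z), map_pow, map_one,
        hpow _ (apply_nonneg v x)]
      have h1 : 1 ≤ (max 1 (v x)) ^ N := one_le_pow₀ (le_max_left _ _)
      exact max_le (na_aeval_le (na v) P hN x) h1)
  rw [← mulHeight₁_eq_mulHeight, ← mulHeight₁_eq_mulHeight, mulHeight₁_pow] at key
  have h5 := log_le_of (K := K) (mulHeight₁_pos _) (by linarith)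
    (pow_pos (mulHeight₁_pos x) N) key
  rw [Real.log_pow] at h5
  unfold hh
  rw [logHeight₁_eq_log_mulHeight₁, logHeight₁_eq_log_mulHeight₁, ← mul_div_assoc]
  exact h5

theorem small_finite {x : K} (hx : x ≠ 0) :
    {v : HeightOneSpectrum (𝓞 K) | FinitePlace.mk v x < 1}.Finite := by
  have h := FinitePlace.hasFiniteMulSupport hx
  have h2 : {w : FinitePlace K | w x < 1}.Finite := by
    apply Set.Finite.subset h
    intro w hw
    rw [Function.mem_mulSupport]
    exact (ne_of_lt hw)
  have h3 := h2.preimage (f := fun v : HeightOneSpectrum (𝓞 K) => FinitePlace.mk v)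
    (fun a _ b _ hab => FinitePlace.mk_eq_iff.1 hab)
  exact h3

theorem cn_eq {x : K} (_hx : x ≠ 0) (S : Finset (HeightOneSpectrum (𝓞 K)))
    (hS : ∀ v, FinitePlace.mk v x < 1 → v ∈ S) : cn x = (∑ v ∈ S,
    if FinitePlace.mk v x < 1 then Real.log (Ideal.absNorm v.asIdeal : ℝ) else 0) /
      (Module.finrank ℚ K : ℝ) := by
  unfold cn
  rw [finsum_eq_sum_of_support_subset]
  intro v hv
  rw [Function.mem_support] at hv
  by_contra h
  exact hv (if_neg fun h' => h (hS v h'))

theorem cn_nonneg (x : K) : 0 ≤ cn x := by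
  unfold cn
  apply div_nonneg _ n_pos.le
  apply finsum_nonneg
  intro v
  split_ifs
  · exact Real.log_natCast_nonneg _
  · exact le_rfl

theorem cn_sub {x y z : K} (hx : x ≠ 0) (hy : y ≠ 0) (hz : z ≠ 0)
    (h : ∀ v : HeightOneSpectrum (𝓞 K), FinitePlace.mk v x < 1 →
      FinitePlace.mk v y < 1 ∨ FinitePlace.mk v z < 1) : cn x ≤ cn y + cn z := by
  classical
  set S := (small_finite hx).toFinset ∪ (small_finite hy).toFinset ∪ (small_finite hz).toFinset
    with hS
  rw [cn_eq hx S (fun v hv => Finset.mem_union_left _ (Finset.mem_union_left _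
      ((Set.Finite.mem_toFinset _).2 hv))),
    cn_eq hy S (fun v hv => Finset.mem_union_left _ (Finset.mem_union_right _
      ((Set.Finite.mem_toFinset _).2 hv))),
    cn_eq hz S (fun v hv => Finset.mem_union_right _ ((Set.Finite.mem_toFinset _).2 hv)), ← add_div,
    div_le_div_iff_of_pos_right n_pos, ← Finset.sum_add_distrib]
  apply Finset.sum_le_sum
  intro v _
  have h0 : 0 ≤ Real.log (Ideal.absNorm v.asIdeal : ℝ) := Real.log_natCast_nonneg _
  by_cases h1 : FinitePlace.mk v x < 1
  · rw [if_pos h1]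
    rcases h v h1 with h2 | h2
    · rw [if_pos h2]
      split_ifs <;> linarith
    · rw [if_pos h2]
      split_ifs <;> linarith
  · rw [if_neg h1]
    split_ifs <;> linarith

theorem fp_small {x : K} (hx : x ≠ 0) (v : HeightOneSpectrum (𝓞 K)) (h : FinitePlace.mk v x < 1) :
    Real.log (Ideal.absNorm v.asIdeal : ℝ) ≤ Real.log (FinitePlace.mk v x⁻¹) := by
  have hN : (1 : ℝ) < (Ideal.absNorm v.asIdeal : ℝ) := by
    exact_mod_cast HeightOneSpectrum.one_lt_absNorm v
  have h0 : v.valuation K x ≠ 0 := (Valuation.ne_zero_iff _).2 hx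
  have e1 : FinitePlace.mk v x = ((WithZeroMulInt.toNNReal
      (HeightOneSpectrum.absNorm_ne_zero v) (v.valuation K x) : NNReal) : ℝ) := by
    rw [FinitePlace.mk_apply, FinitePlace.norm_embedding']
  rw [map_inv₀]
  rw [e1, WithZeroMulInt.toNNReal_neg_apply _ h0] at h ⊢
  set m := (WithZero.unzero h0).toAdd with hm
  have e2 : (((Ideal.absNorm v.asIdeal : NNReal) ^ m : NNReal) : ℝ) =
      (Ideal.absNorm v.asIdeal : ℝ) ^ m := by
    push_cast
    rfl
  rw [e2] at h ⊢
  have hm0 : m < 0 := by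
    by_contra hcon
    push Not at hcon
    have := one_le_zpow₀ hN.le hcon
    linarith
  rw [Real.log_inv, Real.log_zpow]
  have hl : 0 < Real.log (Ideal.absNorm v.asIdeal : ℝ) := Real.log_pos hN
  have : (m : ℝ) ≤ -1 := by exact_mod_cast Int.le_sub_one_of_lt hm0
  nlinarith

theorem cn_le_hh {x : K} (hx : x ≠ 0) : cn x ≤ hh x := by
  classical
  unfold hh
  rw [← logHeight₁_inv, NumberField.logHeight₁_eq, cn_eq hx (small_finite hx).toFinset
    (fun v hv => by simpa using hv), div_le_div_iff_of_pos_right n_pos]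
  have hinf : 0 ≤ ∑ v : InfinitePlace K, (v.mult : ℝ) * Real.posLog (v x⁻¹) :=
    Finset.sum_nonneg fun v _ => mul_nonneg (Nat.cast_nonneg _) Real.posLog_nonneg
  have hfin : ∑ v ∈ (small_finite hx).toFinset,
      (if FinitePlace.mk v x < 1 then Real.log (Ideal.absNorm v.asIdeal : ℝ) else 0) ≤
      ∑ᶠ v : FinitePlace K, Real.posLog (v x⁻¹) := by
    rw [← finsum_comp_equiv FinitePlace.equivHeightOneSpectrum.symm]
    have hs : (Function.support fun v : HeightOneSpectrum (𝓞 K) =>
        Real.posLog (FinitePlace.equivHeightOneSpectrum.symm v x⁻¹)) ⊆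
        ((small_finite hx).toFinset : Set (HeightOneSpectrum (𝓞 K))) := by
      intro v hv
      rw [Function.mem_support] at hv
      rw [Set.Finite.coe_toFinset, Set.mem_ofPred_eq]
      by_contra hcon
      push Not at hcon
      apply hv
      rw [Real.posLog_eq_zero_iff, abs_of_nonneg (apply_nonneg _ _), map_inv₀]
      exact inv_le_one_of_one_le₀ hcon
    rw [finsum_eq_sum_of_support_subset _ hs]
    apply Finset.sum_le_sum
    intro v hv
    have hv' : FinitePlace.mk v x < 1 := by simpa using hv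
    rw [if_pos hv']
    exact (fp_small hx v hv').trans (le_max_right _ _)
  linarith

end

end Pool.Agent.H34x.SL
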