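import Mathlib
import Pool.Agent.H34x.SL.Ht

/-!
# The images under Padé–Belyi maps
-/

set_option autoImplicit false

namespace Pool.Agent.H34x.SL

open Polynomial NumberField IsDedekindDomain Height

theorem map_main (r0 r1 ri : ℕ) : ∃ c : ℝ, 0 ≤ c ∧
    ∀ (K : Type) [Field K] [NumberField K] (x : K), x ≠ 0 → x ≠ 1 →
      ((r0 + r1 + ri + 1 : ℕ) : ℝ) * hh x ≤ c ∨
      ∃ y : K, y ≠ 0 ∧ y ≠ 1 ∧ ((r0 + r1 + ri + 1 : ℕ) : ℝ) * hh x ≤ hh y + c ∧
        cn y ≤ cn x + r0 * hh x + c ∧ cn (1 - y) ≤ cn (1 - x) + r1 * hh x + c ∧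
        cn y⁻¹ ≤ cn x⁻¹ + ri * hh x + c := by
  obtain ⟨A, B, D, hA, hB, hD, hA0, hB0, hABD, hcop⟩ := pade r0 r1 ri
  set m0 := r1 + ri + 1 with hm0
  set m1 := r0 + ri + 1 with hm1
  set F := X ^ m0 * A with hF
  have hFd : F.natDegree = r0 + r1 + ri + 1 := by
    rw [hF, natDegree_mul (pow_ne_zero _ X_ne_zero) hA0, natDegree_X_pow, hA]
    omega
  have hF0 : F ≠ 0 := mul_ne_zero (pow_ne_zero _ X_ne_zero) hA0
  obtain ⟨c, hc, hl⟩ := hh_lower hFd (by omega) hF0 hcop
  have lA := Real.log_nonneg (one_le_L1 A)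
  have lB := Real.log_nonneg (one_le_L1 B)
  have lD := Real.log_nonneg (one_le_L1 D)
  refine ⟨c + Real.log (L1 A) + Real.log (L1 B) + Real.log (L1 D), by positivity, ?_⟩
  intro K _ _ x hx0 hx1
  have hlx := hl K x
  have eF : aeval x F = x ^ m0 * aeval x A := by rw [hF, map_mul, map_pow, aeval_X]
  have eB : aeval x F + (1 - x) ^ m1 * aeval x D = aeval x B := by
    rw [← hABD, map_add, map_mul (aeval x) ((1 - X) ^ m1) D, map_pow, map_sub, map_one, aeval_X]
  have h1x : 1 - x ≠ 0 := sub_ne_zero.2 (Ne.symm hx1)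
  by_cases hAx : aeval x A = 0
  · left
    rw [eF, hAx, mul_zero, zero_div] at hlx
    have : hh (0 : K) = 0 := by simp [hh]
    rw [this] at hlx
    linarith
  by_cases hBx : aeval x B = 0
  · left
    rw [hBx, div_zero] at hlx
    have : hh (0 : K) = 0 := by simp [hh]
    rw [this] at hlx
    linarith
  by_cases hDx : aeval x D = 0
  · left
    rw [hDx, mul_zero, add_zero] at eB
    rw [eB, div_self hBx] at hlx
    have : hh (1 : K) = 0 := by simp [hh]
    rw [this] at hlx
    linarith
  right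
  have hFx : aeval x F ≠ 0 := by
    rw [eF]
    exact mul_ne_zero (pow_ne_zero _ hx0) hAx
  have e1 : 1 - aeval x F / aeval x B = (1 - x) ^ m1 * aeval x D / aeval x B := by
    rw [← eB] at hBx ⊢
    field_simp
    ring
  have hyne : (1 - x) ^ m1 * aeval x D ≠ 0 := mul_ne_zero (pow_ne_zero _ h1x) hDx
  refine ⟨aeval x F / aeval x B, div_ne_zero hFx hBx, ?_, by linarith, ?_, ?_, ?_⟩
  · intro h
    rw [h, sub_self] at e1
    exact (div_ne_zero hyne hBx) e1.symm
  · have h1 : cn (aeval x F / aeval x B) ≤ cn x + cn (aeval x A) := by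
      apply cn_sub (div_ne_zero hFx hBx) hx0 hAx
      intro v hv
      by_contra hcon
      push Not at hcon
      obtain ⟨g1, g2⟩ := hcon
      have hB1 : FinitePlace.mk v (aeval x B) ≤ (max 1 (FinitePlace.mk v x)) ^ ri :=
        na_aeval_le (na (FinitePlace.mk v)) B hB.le x
      rw [max_eq_right g1] at hB1
      have hB2 : FinitePlace.mk v (aeval x B) ≤ FinitePlace.mk v (aeval x F) := by
        rw [eF, map_mul, map_pow]
        calc FinitePlace.mk v (aeval x B) ≤ (FinitePlace.mk v x) ^ ri := hB1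
          _ ≤ (FinitePlace.mk v x) ^ m0 := pow_le_pow_right₀ g1 (by omega)
          _ ≤ (FinitePlace.mk v x) ^ m0 * FinitePlace.mk v (aeval x A) :=
              le_mul_of_one_le_right (pow_nonneg (apply_nonneg _ _) _) g2
      rw [map_div₀, div_lt_one (by
        rw [FinitePlace.pos_iff]; exact hBx)] at hv
      linarith
    have h2 := cn_le_hh hAx
    have h3 := hh_upper A hA.le x
    linarith
  · have h1 : cn (1 - aeval x F / aeval x B) ≤ cn (1 - x) + cn (aeval x D) := by
      rw [e1]
      apply cn_sub (div_ne_zero hyne hBx) h1x hDx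
      intro v hv
      by_contra hcon
      push Not at hcon
      obtain ⟨g1, g2⟩ := hcon
      have hB1 : FinitePlace.mk v (aeval x B) ≤ (max 1 (FinitePlace.mk v x)) ^ ri :=
        na_aeval_le (na (FinitePlace.mk v)) B hB.le x
      have g3 : FinitePlace.mk v x ≤ FinitePlace.mk v (1 - x) := by
        have h5 := FinitePlace.add_le (FinitePlace.mk v) 1 (-(1 - x))
        rw [map_neg_eq_map, map_one, max_eq_right g1] at h5
        have h6 : (1 : K) + -(1 - x) = x := by ring
        rwa [h6] at h5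
      have hB2 : FinitePlace.mk v (aeval x B) ≤ FinitePlace.mk v ((1 - x) ^ m1 * aeval x D) := by
        rw [map_mul, map_pow]
        calc FinitePlace.mk v (aeval x B) ≤ (max 1 (FinitePlace.mk v x)) ^ ri := hB1
          _ ≤ (FinitePlace.mk v (1 - x)) ^ ri :=
              pow_le_pow_left₀ (zero_le_one.trans (le_max_left _ _)) (max_le g1 g3) _
          _ ≤ (FinitePlace.mk v (1 - x)) ^ m1 := pow_le_pow_right₀ g1 (by omega)
          _ ≤ (FinitePlace.mk v (1 - x)) ^ m1 * FinitePlace.mk v (aeval x D) :=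
              le_mul_of_one_le_right (pow_nonneg (apply_nonneg _ _) _) g2
      rw [map_div₀, div_lt_one (by
        rw [FinitePlace.pos_iff]; exact hBx)] at hv
      linarith
    have h2 := cn_le_hh hDx
    have h3 := hh_upper D hD x
    linarith
  · have h1 : cn (aeval x F / aeval x B)⁻¹ ≤ cn x⁻¹ + cn (aeval x B) := by
      apply cn_sub (inv_ne_zero (div_ne_zero hFx hBx)) (inv_ne_zero hx0) hBx
      intro v hv
      by_contra hcon
      push Not at hcon
      obtain ⟨g1, g2⟩ := hcon
      have g3 : FinitePlace.mk v x ≤ 1 := by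
        rw [map_inv₀] at g1
        have hvx : 0 < FinitePlace.mk v x := FinitePlace.pos_iff.2 hx0
        exact (one_le_inv₀ hvx).1 g1
      have hB2 : FinitePlace.mk v (aeval x F) ≤ FinitePlace.mk v (aeval x B) := by
        rw [eF, map_mul, map_pow]
        have h5 : FinitePlace.mk v (aeval x A) ≤ (max 1 (FinitePlace.mk v x)) ^ r0 :=
          na_aeval_le (na (FinitePlace.mk v)) A hA.le x
        rw [max_eq_left g3, one_pow] at h5
        calc (FinitePlace.mk v x) ^ m0 * FinitePlace.mk v (aeval x A) ≤ 1 * 1 :=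
              mul_le_mul (pow_le_one₀ (apply_nonneg _ _) g3) h5 (apply_nonneg _ _) zero_le_one
          _ ≤ _ := by rw [one_mul]; exact g2
      rw [inv_div, map_div₀, div_lt_one (by
        rw [FinitePlace.pos_iff]; exact hFx)] at hv
      linarith
    have h2 := cn_le_hh hBx
    have h3 := hh_upper B hB.le x
    linarith

end Pool.Agent.H34x.SL
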