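import Mathlib
import Pool.Agent.H34x.SL.Map

/-!
# The definitions, and the comparison with the one variable functions
-/

set_option autoImplicit false

namespace Pool.Agent.H34x.SL

open NumberField IsDedekindDomain Height

section

variable {K : Type} [Field K] [NumberField K]

/-- the height `H(a, b, c)` -/
noncomputable def height (a b c : K) : ℝ :=
  Height.mulHeight ![a, b, c] ^ (1 / (Module.finrank ℚ K : ℝ))

/-- the conductor `N(a, b, c)` -/
noncomputable def conductor (a b c : K) : ℝ :=
  (∏ᶠ v : HeightOneSpectrum (𝓞 K),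
    if v.valuation K a = v.valuation K b ∧ v.valuation K b = v.valuation K c then (1 : ℝ)
    else (Ideal.absNorm v.asIdeal : ℝ)) ^ (1 / (Module.finrank ℚ K : ℝ))

/-- the part `N_a` of the conductor -/
noncomputable def part (a b c : K) : ℝ :=
  (∏ᶠ v : HeightOneSpectrum (𝓞 K),
    if v.valuation K a < max (v.valuation K b) (v.valuation K c) then
      (Ideal.absNorm v.asIdeal : ℝ) else 1) ^ (1 / (Module.finrank ℚ K : ℝ))

variable (K)

/-- the root discriminant -/
noncomputable def rootDisc : ℝ :=
  |(NumberField.discr K : ℝ)| ^ (1 / (Module.finrank ℚ K : ℝ))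

theorem one_le_rootDisc : 1 ≤ rootDisc K := by
  unfold rootDisc
  apply Real.one_le_rpow
  · exact_mod_cast Int.one_le_abs (NumberField.discr_ne_zero K)
  · exact div_nonneg zero_le_one n_pos.le

variable {K}

theorem height_pos (a b c : K) : 0 < height a b c := Real.rpow_pos_of_pos (mulHeight_pos _) _

theorem log_height (a b c : K) :
    Real.log (height a b c) = Real.log (mulHeight ![a, b, c]) / (Module.finrank ℚ K : ℝ) := by
  unfold height
  rw [Real.log_rpow (mulHeight_pos _)]
  ring

theorem hh_neg (x : K) : hh (-x) = hh x := by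
  unfold hh
  rw [logHeight₁_neg]

theorem hh_inv (x : K) : hh x⁻¹ = hh x := by
  unfold hh
  rw [logHeight₁_inv]

theorem hh_le_log_height {a b c : K} : hh (-a / c) ≤ Real.log (height a b c) := by
  rw [log_height, neg_div, hh_neg]
  unfold hh
  rw [logHeight₁_div_eq_logHeight, logHeight_eq_log_mulHeight, div_le_div_iff_of_pos_right n_pos]
  apply Real.log_le_log (mulHeight_pos _)
  have h := mulHeight_comp_le (![0, 2] : Fin 2 → Fin 3) ![a, b, c]
  have h2 : (![a, b, c] ∘ (![0, 2] : Fin 2 → Fin 3)) = ![a, c] := by
    ext i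
    fin_cases i <;> rfl
  rwa [h2] at h

theorem log_height_le {a b c : K} (hc : c ≠ 0) (h : a + b + c = 0) :
    Real.log (height a b c) ≤ hh (-a / c) + Real.log 2 := by
  have hb : b = -(a + c) := by
    rw [eq_neg_iff_add_eq_zero]
    rw [← h]
    ring
  rw [log_height, neg_div, hh_neg]
  unfold hh
  rw [logHeight₁_div_eq_logHeight, logHeight_eq_log_mulHeight]
  have hx0 : (![a, b, c] : Fin 3 → K) ≠ 0 := by
    intro h
    exact hc (by simpa using congrFun h 2)
  have hy0 : (![a, c] : Fin 2 → K) ≠ 0 := by
    intro h
    exact hc (by simpa using congrFun h 1)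
  apply log_le_of (mulHeight_pos _) (by norm_num) (mulHeight_pos _)
  apply mulHeight_le hx0 hy0 (by norm_num)
  · intro w
    rw [sup_three (fun z => w z), sup_two (fun z => w z)]
    have h0 : 0 ≤ max (w a) (w c) := (apply_nonneg w _).trans (le_max_left _ _)
    have h1 : w b ≤ 2 * max (w a) (w c) := by
      have e1 : w b = w.1 (a + c) := by
        rw [hb]
        exact w.1.map_neg _
      rw [e1]
      refine (w.1.add_le _ _).trans ?_
      have h3 : w.1 a ≤ max (w a) (w c) := le_max_left _ _
      have h4 : w.1 c ≤ max (w a) (w c) := le_max_right _ _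
      linarith
    refine max_le ?_ (max_le h1 ?_)
    · have := le_max_left (w a) (w c)
      linarith
    · have := le_max_right (w a) (w c)
      linarith
  · intro v
    rw [sup_three (fun z => v z), sup_two (fun z => v z)]
    refine max_le (le_max_left _ _) (max_le ?_ (le_max_right _ _))
    rw [hb, map_neg_eq_map]
    exact FinitePlace.add_le v _ _

theorem mk_lt_iff (v : HeightOneSpectrum (𝓞 K)) {p q : K} :
    v.valuation K p < v.valuation K q ↔ FinitePlace.mk v p < FinitePlace.mk v q := by
  have e : ∀ x : K, FinitePlace.mk v x = ((WithZeroMulInt.toNNReal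
      (HeightOneSpectrum.absNorm_ne_zero v) (v.valuation K x) : NNReal) : ℝ) := fun x => by
    rw [FinitePlace.mk_apply, FinitePlace.norm_embedding']
  rw [e, e, NNReal.coe_lt_coe]
  exact (WithZeroMulInt.toNNReal_strictMono (HeightOneSpectrum.one_lt_absNorm_nnreal v)).lt_iff_lt.symm

theorem mk_eq_iff' (v : HeightOneSpectrum (𝓞 K)) {p q : K} :
    v.valuation K p = v.valuation K q ↔ FinitePlace.mk v p = FinitePlace.mk v q := by
  have h1 := mk_lt_iff v (p := p) (q := q)
  have h2 := mk_lt_iff v (p := q) (q := p)
  constructor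
  · intro h
    apply le_antisymm
    · by_contra h3
      push Not at h3
      rw [← h2] at h3
      exact h3.ne h.symm
    · by_contra h3
      push Not at h3
      rw [← h1] at h3
      exact h3.ne h
  · intro h
    apply le_antisymm
    · by_contra h3
      push Not at h3
      rw [h2] at h3
      exact h3.ne h.symm
    · by_contra h3
      push Not at h3
      rw [h1] at h3
      exact h3.ne h

/-- the three cases -/
theorem lt_iff_one (v : HeightOneSpectrum (𝓞 K)) {a b c : K} (hc : c ≠ 0) (h : a + b + c = 0) :
    v.valuation K a < max (v.valuation K b) (v.valuation K c) ↔ FinitePlace.mk v (-a / c) < 1 := by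
  have hvc : 0 < FinitePlace.mk v c := FinitePlace.pos_iff.2 hc
  rw [lt_max_iff, mk_lt_iff, mk_lt_iff, map_div₀, map_neg_eq_map, div_lt_one hvc]
  constructor
  · rintro (h1 | h1)
    · have hb : b = -(a + c) := by
        rw [eq_neg_iff_add_eq_zero]
        rw [← h]
        ring
      rw [hb, map_neg_eq_map] at h1
      have h2 := FinitePlace.add_le (FinitePlace.mk v) a c
      rcases le_max_iff.1 h2 with h3 | h3
      · linarith
      · linarith
    · exact h1
  · exact Or.inr

theorem log_fin {f : HeightOneSpectrum (𝓞 K) → Prop} [DecidablePred f]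
    (hf : {v | f v}.Finite) :
    Real.log ((∏ᶠ v : HeightOneSpectrum (𝓞 K), if f v then (Ideal.absNorm v.asIdeal : ℝ) else 1) ^
      (1 / (Module.finrank ℚ K : ℝ))) =
      (∑ᶠ v : HeightOneSpectrum (𝓞 K), if f v then Real.log (Ideal.absNorm v.asIdeal : ℝ) else 0) /
        (Module.finrank ℚ K : ℝ) := by
  classical
  have hpos : ∀ v : HeightOneSpectrum (𝓞 K), (0 : ℝ) < (Ideal.absNorm v.asIdeal : ℝ) := fun v => by
    have := HeightOneSpectrum.one_lt_absNorm v
    have h2 : (1 : ℝ) < (Ideal.absNorm v.asIdeal : ℝ) := by exact_mod_cast this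
    linarith
  rw [finprod_eq_prod_of_mulSupport_subset (s := hf.toFinset),
    finsum_eq_sum_of_support_subset (s := hf.toFinset)]
  · rw [Real.log_rpow (Finset.prod_pos fun v _ => by split_ifs; exacts [hpos v, one_pos]),
      Real.log_prod (fun v _ => by split_ifs; exacts [(hpos v).ne', one_ne_zero])]
    have : ∀ v, Real.log (if f v then (Ideal.absNorm v.asIdeal : ℝ) else 1) =
        if f v then Real.log (Ideal.absNorm v.asIdeal : ℝ) else 0 := fun v => by
      split_ifs
      · rfl
      · exact Real.log_one
    simp only [this]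
    ring
  · intro v hv
    rw [Function.mem_support] at hv
    rw [Set.Finite.coe_toFinset]
    by_contra h
    exact hv (if_neg h)
  · intro v hv
    rw [Function.mem_mulSupport] at hv
    rw [Set.Finite.coe_toFinset]
    by_contra h
    exact hv (if_neg h)

theorem finprod_if_pos {f : HeightOneSpectrum (𝓞 K) → Prop} [DecidablePred f] :
    1 ≤ (∏ᶠ v : HeightOneSpectrum (𝓞 K), if f v then (Ideal.absNorm v.asIdeal : ℝ) else 1) := by
  apply one_le_finprod
  intro v
  split_ifs
  · have := HeightOneSpectrum.one_lt_absNorm v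
    exact_mod_cast this.le
  · exact le_rfl

theorem one_le_part (a b c : K) : 1 ≤ part a b c := by
  unfold part
  exact Real.one_le_rpow finprod_if_pos (div_nonneg zero_le_one n_pos.le)

theorem log_part {a b c : K} (ha : a ≠ 0) (hc : c ≠ 0) (h : a + b + c = 0) :
    Real.log (part a b c) = cn (-a / c) := by
  have hx : -a / c ≠ 0 := div_ne_zero (neg_ne_zero.2 ha) hc
  unfold part cn
  rw [log_fin]
  · congr 1
    apply finsum_congr
    intro v
    by_cases h1 : FinitePlace.mk v (-a / c) < 1
    · rw [if_pos h1, if_pos ((lt_iff_one v hc h).2 h1)]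
    · rw [if_neg h1, if_neg fun h2 => h1 ((lt_iff_one v hc h).1 h2)]
  · apply (small_finite hx).subset
    intro v hv
    exact (lt_iff_one v hc h).1 hv

theorem cn_neg (x : K) : cn (-x) = cn x := by
  unfold cn
  congr 1
  apply finsum_congr
  intro v
  rw [map_neg_eq_map]

/-- the cases at a prime -/
theorem cases_at (v : HeightOneSpectrum (𝓞 K)) {a b c : K} (h : a + b + c = 0) :
    (¬ (v.valuation K a = v.valuation K b ∧ v.valuation K b = v.valuation K c) ↔
      v.valuation K a < max (v.valuation K b) (v.valuation K c) ∨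
      v.valuation K b < max (v.valuation K c) (v.valuation K a) ∨
      v.valuation K c < max (v.valuation K a) (v.valuation K b)) ∧
    ¬ (v.valuation K a < max (v.valuation K b) (v.valuation K c) ∧
      v.valuation K b < max (v.valuation K c) (v.valuation K a)) ∧
    ¬ (v.valuation K a < max (v.valuation K b) (v.valuation K c) ∧
      v.valuation K c < max (v.valuation K a) (v.valuation K b)) ∧
    ¬ (v.valuation K b < max (v.valuation K c) (v.valuation K a) ∧
      v.valuation K c < max (v.valuation K a) (v.valuation K b)) := by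
  have hA : v.valuation K a ≤ max (v.valuation K b) (v.valuation K c) := by
    have e : a = -(b + c) := by
      rw [eq_neg_iff_add_eq_zero, ← h]
      ring
    rw [e, Valuation.map_neg]
    exact Valuation.map_add _ _ _
  have hB : v.valuation K b ≤ max (v.valuation K c) (v.valuation K a) := by
    have e : b = -(c + a) := by
      rw [eq_neg_iff_add_eq_zero, ← h]
      ring
    rw [e, Valuation.map_neg]
    exact Valuation.map_add _ _ _
  have hC : v.valuation K c ≤ max (v.valuation K a) (v.valuation K b) := by
    have e : c = -(a + b) := by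
      rw [eq_neg_iff_add_eq_zero, ← h]
      ring
    rw [e, Valuation.map_neg]
    exact Valuation.map_add _ _ _
  generalize v.valuation K a = A at *
  generalize v.valuation K b = B at *
  generalize v.valuation K c = C at *
  clear h
  simp only [lt_max_iff, le_max_iff] at *
  grind

theorem part_comm (a b c : K) : part a b c = part a c b := by
  unfold part
  congr 1
  apply finprod_congr
  intro v
  rw [max_comm]

theorem fin_part {a b c : K} (ha : a ≠ 0) (hc : c ≠ 0) (h : a + b + c = 0) :
    {v : HeightOneSpectrum (𝓞 K) |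
      v.valuation K a < max (v.valuation K b) (v.valuation K c)}.Finite := by
  have hx : -a / c ≠ 0 := div_ne_zero (neg_ne_zero.2 ha) hc
  apply (small_finite hx).subset
  intro v hv
  exact (lt_iff_one v hc h).1 hv

theorem conductor_eq {a b c : K} (ha : a ≠ 0) (hb : b ≠ 0) (hc : c ≠ 0) (h : a + b + c = 0) :
    conductor a b c = part a b c * part b c a * part c a b := by
  classical
  unfold conductor part
  rw [← Real.mul_rpow (zero_le_one.trans finprod_if_pos) (zero_le_one.trans finprod_if_pos),
    ← Real.mul_rpow (mul_nonneg (zero_le_one.trans finprod_if_pos)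
      (zero_le_one.trans finprod_if_pos)) (zero_le_one.trans finprod_if_pos)]
  congr 1
  have fA := fin_part ha hc h
  have fB := fin_part hb ha (show b + c + a = 0 by rw [← h]; ring)
  have fC := fin_part hc hb (show c + a + b = 0 by rw [← h]; ring)
  have sA : (Function.mulSupport fun v : HeightOneSpectrum (𝓞 K) =>
      if v.valuation K a < max (v.valuation K b) (v.valuation K c) then
      (Ideal.absNorm v.asIdeal : ℝ) else 1).Finite := fA.subset fun v hv => by
    rw [Function.mem_mulSupport] at hv
    by_contra h
    exact hv (if_neg h)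
  have sB : (Function.mulSupport fun v : HeightOneSpectrum (𝓞 K) =>
      if v.valuation K b < max (v.valuation K c) (v.valuation K a) then
      (Ideal.absNorm v.asIdeal : ℝ) else 1).Finite := fB.subset fun v hv => by
    rw [Function.mem_mulSupport] at hv
    by_contra h
    exact hv (if_neg h)
  have sC : (Function.mulSupport fun v : HeightOneSpectrum (𝓞 K) =>
      if v.valuation K c < max (v.valuation K a) (v.valuation K b) then
      (Ideal.absNorm v.asIdeal : ℝ) else 1).Finite := fC.subset fun v hv => by
    rw [Function.mem_mulSupport] at hv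
    by_contra h
    exact hv (if_neg h)
  have sAB : (Function.mulSupport fun v : HeightOneSpectrum (𝓞 K) =>
      (if v.valuation K a < max (v.valuation K b) (v.valuation K c) then
      (Ideal.absNorm v.asIdeal : ℝ) else 1) *
      (if v.valuation K b < max (v.valuation K c) (v.valuation K a) then
      (Ideal.absNorm v.asIdeal : ℝ) else 1)).Finite :=
    (sA.union sB).subset (Function.mulSupport_mul _ _)
  rw [← finprod_mul_distrib sA sB, ← finprod_mul_distrib sAB sC]
  apply finprod_congr
  intro v
  obtain ⟨c1, c2, c3, c4⟩ := cases_at v h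
  by_cases h1 : v.valuation K a < max (v.valuation K b) (v.valuation K c)
  · rw [if_neg (c1.2 (Or.inl h1)), if_pos h1, if_neg fun h2 => c2 ⟨h1, h2⟩,
      if_neg fun h2 => c3 ⟨h1, h2⟩, mul_one, mul_one]
  · rw [if_neg h1, one_mul]
    by_cases h2 : v.valuation K b < max (v.valuation K c) (v.valuation K a)
    · rw [if_neg (c1.2 (Or.inr (Or.inl h2))), if_pos h2, if_neg fun h3 => c4 ⟨h2, h3⟩, mul_one]
    · rw [if_neg h2, one_mul]
      by_cases h3 : v.valuation K c < max (v.valuation K a) (v.valuation K b)
      · rw [if_neg (c1.2 (Or.inr (Or.inr h3))), if_pos h3]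
      · rw [if_neg h3, if_pos]
        by_contra h4
        rcases c1.1 h4 with h5 | h5 | h5
        · exact h1 h5
        · exact h2 h5
        · exact h3 h5

theorem logs {a b c : K} (ha : a ≠ 0) (hb : b ≠ 0) (hc : c ≠ 0) (h : a + b + c = 0) :
    -a / c ≠ 0 ∧ -a / c ≠ 1 ∧ Real.log (part a b c) = cn (-a / c) ∧
      Real.log (part b c a) = cn (1 - -a / c) ∧ Real.log (part c a b) = cn (-a / c)⁻¹ := by
  have e1 : 1 - -a / c = -b / c := by
    have hb' : b = -(a + c) := by
      rw [eq_neg_iff_add_eq_zero, ← h]
      ring
    rw [hb']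
    field_simp
    ring
  have e2 : (-a / c)⁻¹ = -c / a := by
    rw [inv_div, div_neg, neg_div]
  refine ⟨div_ne_zero (neg_ne_zero.2 ha) hc, ?_, log_part ha hc h, ?_, ?_⟩
  · intro h1
    rw [h1, sub_self] at e1
    exact (div_ne_zero (neg_ne_zero.2 hb) hc) e1.symm
  · rw [part_comm, e1]
    exact log_part hb hc (by rw [← h]; ring)
  · rw [part_comm, e2]
    exact log_part hc ha (by rw [← h]; ring)

theorem log_conductor {a b c : K} (ha : a ≠ 0) (hb : b ≠ 0) (hc : c ≠ 0) (h : a + b + c = 0) :
    Real.log (conductor a b c) = cn (-a / c) + cn (1 - -a / c) + cn (-a / c)⁻¹ := by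
  obtain ⟨-, -, h1, h2, h3⟩ := logs ha hb hc h
  have p1 : part a b c ≠ 0 := (zero_lt_one.trans_le (one_le_part a b c)).ne'
  have p2 : part b c a ≠ 0 := (zero_lt_one.trans_le (one_le_part b c a)).ne'
  have p3 : part c a b ≠ 0 := (zero_lt_one.trans_le (one_le_part c a b)).ne'
  rw [conductor_eq ha hb hc h, Real.log_mul (mul_ne_zero p1 p2) p3, Real.log_mul p1 p2, h1, h2, h3]

theorem one_le_conductor {a b c : K} (ha : a ≠ 0) (hb : b ≠ 0) (hc : c ≠ 0) (h : a + b + c = 0) :
    1 ≤ conductor a b c := by
  rw [conductor_eq ha hb hc h]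
  exact one_le_mul_of_one_le_of_one_le
    (one_le_mul_of_one_le_of_one_le (one_le_part _ _ _) (one_le_part _ _ _)) (one_le_part _ _ _)

theorem hh_one_sub (x : K) : hh (1 - x) ≤ hh x + Real.log 2 := by
  have h1 := logHeight₁_sub_le (1 : K) x
  rw [logHeight₁_one, add_zero] at h1
  unfold hh
  rw [NumberField.totalWeight_eq_finrank] at h1
  rw [div_add' _ _ _ n_pos.ne', div_le_div_iff_of_pos_right n_pos]
  linarith

end

end Pool.Agent.H34x.SL
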