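import Mathlib
import Pool.Agent.H34x.SL.Core

/-!
# The reduction to triples of a given shape
-/

set_option autoImplicit false

namespace Pool.Agent.H34x.SL

open NumberField IsDedekindDomain Height

/-- the three parts of the conductor are small -/
def Shape (C α β γ : ℝ) (K : Type) [Field K] [NumberField K] (a b c : K) : Prop :=
  part a b c ≤ C * height a b c ^ α ∧ part b c a ≤ C * height a b c ^ β ∧
    part c a b ≤ C * height a b c ^ γ

/-- the inequality with the exponent `κ` for the fields in `F` and the triples in `T` -/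
def Holds (F : ∀ (K : Type) [Field K], Prop)
    (T : ∀ (K : Type) [Field K] [NumberField K], K → K → K → Prop) (κ : ℝ) : Prop :=
  ∃ C : ℝ, 0 < C ∧ ∀ (K : Type) [Field K] [NumberField K], F K → ∀ a b c : K, a ≠ 0 → b ≠ 0 →
    c ≠ 0 → a + b + c = 0 → T K a b c → height a b c ≤ C * (rootDisc K * conductor a b c) ^ κ

theorem le_of_log {x y : ℝ} (hx : 0 < x) (hy : 0 < y) (h : Real.log x ≤ Real.log y) : x ≤ y :=
  (Real.log_le_log_iff hx hy).1 h

theorem quant (r0 r1 ri : ℕ) : ∃ C0 : ℝ, 0 < C0 ∧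
    ∀ (F : ∀ (K : Type) [Field K], Prop) (κ : ℝ), 0 < κ →
      κ * ((r0 + r1 + ri : ℕ) : ℝ) < ((r0 + r1 + ri + 1 : ℕ) : ℝ) →
      Holds F (Shape C0 ((r0 + 1 : ℕ) / ((r0 + r1 + ri + 1 : ℕ) : ℝ))
        ((r1 + 1 : ℕ) / ((r0 + r1 + ri + 1 : ℕ) : ℝ))
        ((ri + 1 : ℕ) / ((r0 + r1 + ri + 1 : ℕ) : ℝ))) κ →
      Holds F (fun _ _ _ _ _ _ => True)
        (κ / (((r0 + r1 + ri + 1 : ℕ) : ℝ) - κ * ((r0 + r1 + ri : ℕ) : ℝ))) := by
  obtain ⟨c0, hc0, hmap⟩ := map_main r0 r1 ri
  set k : ℝ := ((r0 + r1 + ri + 1 : ℕ) : ℝ) with hk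
  have hk1 : (1 : ℝ) ≤ k := by rw [hk]; exact_mod_cast Nat.le_add_left 1 _
  have hkpos : 0 < k := by linarith
  have hkm : ((r0 + r1 + ri : ℕ) : ℝ) = k - 1 := by rw [hk]; push_cast; ring
  have hks : (r0 : ℝ) + r1 + ri = k - 1 := by rw [← hkm]; push_cast; ring
  have l2 : 0 < Real.log 2 := Real.log_pos (by norm_num)
  -- the constant
  set M : ℝ := k * c0 + c0 + k * Real.log 2 + Real.log 2 with hM
  have hM0 : 0 ≤ M := by positivity
  refine ⟨Real.exp M, Real.exp_pos _, ?_⟩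
  intro F κ hκ hκk hH
  rw [hkm] at hκk ⊢
  set D := k - κ * (k - 1) with hD
  have hD0 : 0 < D := by rw [hD]; linarith
  obtain ⟨C, hC, hH⟩ := hH
  -- the final constant
  set E : ℝ := max 0 (Real.log C) + c0 + 3 * κ * c0 with hE
  have hE0 : 0 ≤ E := by
    have := le_max_left 0 (Real.log C)
    positivity
  refine ⟨Real.exp (E / D + c0 + Real.log 2), Real.exp_pos _, ?_⟩
  intro K _ _ hK a b c ha hb hc habc _
  obtain ⟨hx0, hx1, p1, p2, p3⟩ := logs ha hb hc habc
  have hN := log_conductor ha hb hc habc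
  have hNone := one_le_conductor ha hb hc habc
  have hδ := one_le_rootDisc K
  have hHl := log_height_le hc habc
  set x : K := -a / c with hx
  have hδN : 0 < rootDisc K * conductor a b c := by positivity
  have hlogδ : 0 ≤ Real.log (rootDisc K) := Real.log_nonneg hδ
  have hlogN : 0 ≤ Real.log (conductor a b c) := Real.log_nonneg hNone
  have hgoal : ∀ t : ℝ, Real.log (height a b c) ≤
      t + (κ / D) * (Real.log (rootDisc K) + Real.log (conductor a b c)) →
      height a b c ≤ Real.exp t * (rootDisc K * conductor a b c) ^ (κ / D) := by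
    intro t ht
    apply le_of_log (height_pos _ _ _) (mul_pos (Real.exp_pos _) (Real.rpow_pos_of_pos hδN _))
    rw [Real.log_mul (Real.exp_pos _).ne' (Real.rpow_pos_of_pos hδN _).ne', Real.log_exp,
      Real.log_rpow hδN, Real.log_mul (by linarith) (by linarith)]
    exact ht
  apply hgoal
  have hκD : 0 ≤ κ / D := by positivity
  have hED : 0 ≤ E / D := by positivity
  have hright : 0 ≤ (κ / D) * (Real.log (rootDisc K) + Real.log (conductor a b c)) := by positivity
  have hhx := hh_nonneg x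
  rcases hmap K x hx0 hx1 with h | ⟨y, hy0, hy1, g0, g1, g2, g3⟩
  · -- small height
    have h1 : hh x ≤ c0 := by
      nlinarith
    linarith
  · -- the triple belonging to y
    have ha' : -y ≠ 0 := neg_ne_zero.2 hy0
    have hb' : y - 1 ≠ 0 := sub_ne_zero.2 hy1
    have habc' : -y + (y - 1) + 1 = 0 := by ring
    have hyx : -(-y) / (1 : K) = y := by rw [neg_neg, div_one]
    obtain ⟨-, -, q1, q2, q3⟩ := logs ha' hb' one_ne_zero habc'
    have hN' := log_conductor ha' hb' one_ne_zero habc'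
    have hNone' := one_le_conductor ha' hb' one_ne_zero habc'
    have hH1 : hh y ≤ Real.log (height (-y) (y - 1) 1) := by
      have := hh_le_log_height (a := -y) (b := y - 1) (c := (1 : K))
      rwa [hyx] at this
    rw [hyx] at q1 q2 q3 hN'
    set h := hh x with hhdef
    set h' := Real.log (height (-y) (y - 1) 1) with hh'
    have n1 : cn x ≤ h := cn_le_hh hx0
    have n2 : cn (1 - x) ≤ h + Real.log 2 :=
      (cn_le_hh (sub_ne_zero.2 (Ne.symm hx1))).trans (hh_one_sub x)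
    have n3 : cn x⁻¹ ≤ h := by
      have := cn_le_hh (inv_ne_zero hx0)
      rwa [hh_inv] at this
    have hkh : k * h ≤ h' + c0 := by linarith
    -- the shape
    have hshape : ∀ (r : ℕ) (n : ℝ) (P : ℝ), 0 < P → Real.log P = n → n ≤ ((r : ℝ) + 1) * h +
        Real.log 2 + c0 → (r : ℝ) + 1 ≤ k →
        P ≤ Real.exp M * height (-y) (y - 1) 1 ^ (((r + 1 : ℕ) : ℝ) / k) := by
      intro r n P hP hn hle hrk
      apply le_of_log hP (mul_pos (Real.exp_pos _) (Real.rpow_pos_of_pos (height_pos _ _ _) _))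
      rw [Real.log_mul (Real.exp_pos _).ne' (Real.rpow_pos_of_pos (height_pos _ _ _) _).ne',
        Real.log_exp, Real.log_rpow (height_pos _ _ _), hn]
      have e1 : ((r : ℝ) + 1) * h ≤ (((r + 1 : ℕ) : ℝ) / k) * (h' + c0) := by
        push_cast
        rw [div_mul_eq_mul_div, le_div_iff₀ hkpos]
        nlinarith [mul_le_mul_of_nonneg_left hkh (show (0 : ℝ) ≤ (r : ℝ) + 1 by positivity)]
      have e2 : (((r + 1 : ℕ) : ℝ) / k) * c0 ≤ c0 := by
        apply mul_le_of_le_one_left hc0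
        push_cast
        rwa [div_le_one hkpos]
      have e3 : c0 + Real.log 2 + c0 ≤ M := by
        rw [hM]
        nlinarith
      nlinarith
    have r0k : (r0 : ℝ) + 1 ≤ k := by
      have : (0 : ℝ) ≤ r1 := Nat.cast_nonneg _
      have : (0 : ℝ) ≤ ri := Nat.cast_nonneg _
      linarith
    have r1k : (r1 : ℝ) + 1 ≤ k := by
      have : (0 : ℝ) ≤ r0 := Nat.cast_nonneg _
      have : (0 : ℝ) ≤ ri := Nat.cast_nonneg _
      linarith
    have rik : (ri : ℝ) + 1 ≤ k := by
      have : (0 : ℝ) ≤ r0 := Nat.cast_nonneg _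
      have : (0 : ℝ) ≤ r1 := Nat.cast_nonneg _
      linarith
    have hS : Shape (Real.exp M) ((r0 + 1 : ℕ) / k) ((r1 + 1 : ℕ) / k) ((ri + 1 : ℕ) / k) K
        (-y) (y - 1) 1 := by
      refine ⟨hshape r0 _ _ (zero_lt_one.trans_le (one_le_part _ _ _)) q1 (by nlinarith) r0k,
        hshape r1 _ _ (zero_lt_one.trans_le (one_le_part _ _ _)) q2 (by nlinarith) r1k,
        hshape ri _ _ (zero_lt_one.trans_le (one_le_part _ _ _)) q3 (by nlinarith) rik⟩
    have key := hH K hK (-y) (y - 1) 1 ha' hb' one_ne_zero habc' hS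
    have hδN' : 0 < rootDisc K * conductor (-y) (y - 1) 1 := by positivity
    have key2 := Real.log_le_log (height_pos _ _ _) key
    rw [Real.log_mul hC.ne' (Real.rpow_pos_of_pos hδN' _).ne', Real.log_rpow hδN',
      Real.log_mul (by linarith) (by linarith), hN', ← hh'] at key2
    have hCle : Real.log C ≤ max 0 (Real.log C) := le_max_right _ _
    have hsum : cn y + cn (1 - y) + cn y⁻¹ ≤
        Real.log (conductor a b c) + (k - 1) * h + 3 * c0 := by
      rw [hN, ← hks]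
      nlinarith
    have hmain : D * h ≤ κ * (Real.log (rootDisc K) + Real.log (conductor a b c)) + E := by
      have e5 := mul_le_mul_of_nonneg_left hsum hκ.le
      rw [hD, hE]
      nlinarith
    have hfin : h ≤ (κ / D) * (Real.log (rootDisc K) + Real.log (conductor a b c)) + E / D := by
      rw [div_mul_eq_mul_div, ← add_div, le_div_iff₀ hD0]
      linarith
    linarith

theorem Holds.mono {F : ∀ (K : Type) [Field K], Prop}
    {T : ∀ (K : Type) [Field K] [NumberField K], K → K → K → Prop} {κ κ' : ℝ} (h : κ ≤ κ')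
    (hT : Holds F T κ) : Holds F T κ' := by
  obtain ⟨C, hC, H⟩ := hT
  refine ⟨C, hC, ?_⟩
  intro K _ _ hK a b c ha hb hc habc hT
  refine (H K hK a b c ha hb hc habc hT).trans (mul_le_mul_of_nonneg_left ?_ hC.le)
  exact Real.rpow_le_rpow_of_exponent_le
    (one_le_mul_of_one_le_of_one_le (one_le_rootDisc K) (one_le_conductor ha hb hc habc)) h

/-- the equivalence -/
theorem equiv (F : ∀ (K : Type) [Field K], Prop) {α β γ : ℝ} (hα : 0 < α) (hβ : 0 < β)
    (hγ : 0 < γ) (hs : 1 < α + β + γ)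
    (H : ∀ ε : ℝ, 0 < ε → Holds F (Shape 1 α β γ) (1 + ε)) :
    ∀ ε : ℝ, 0 < ε → Holds F (fun _ _ _ _ _ _ => True) (1 + ε) := by
  intro ε hε
  -- the degree
  obtain ⟨k, hk⟩ := exists_nat_gt (max (max (2 / α) (2 / β)) (max (2 / γ) (6 / (α + β + γ - 1))))
  rw [max_lt_iff, max_lt_iff, max_lt_iff, div_lt_iff₀ hα, div_lt_iff₀ hβ, div_lt_iff₀ hγ,
    div_lt_iff₀ (by linarith)] at hk
  obtain ⟨⟨hk1, hk2⟩, hk3, hk4⟩ := hk
  have hkpos : (0 : ℝ) < k := by
    by_contra hcon
    push Not at hcon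
    nlinarith
  have hk0 : 0 < k := by exact_mod_cast hkpos
  -- the numbers r
  have hceil : ∀ t : ℝ, 2 < k * t → ∃ r : ℕ, ((r : ℝ) + 1 < k * t) ∧ k * t ≤ r + 2 := by
    intro t ht
    have h1 : 0 ≤ k * t - 2 := by linarith
    refine ⟨⌈k * t - 2⌉₊, ?_, ?_⟩
    · have := Nat.ceil_lt_add_one h1
      linarith
    · have := Nat.le_ceil (k * t - 2)
      linarith
  obtain ⟨A, hA1, hA2⟩ := hceil α (by linarith)
  obtain ⟨B, hB1, hB2⟩ := hceil β (by linarith)
  obtain ⟨G, hG1, hG2⟩ := hceil γ (by linarith)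
  have hsum : k - 1 ≤ A + B + G := by
    have h1 : (k : ℝ) - 1 ≤ A + B + G := by nlinarith
    have h2 : (k : ℝ) ≤ ((A + B + G + 1 : ℕ) : ℝ) := by push_cast; linarith
    have : k ≤ A + B + G + 1 := by exact_mod_cast h2
    omega
  obtain ⟨r0, r1, ri, hr0, hr1, hri, hr⟩ : ∃ r0 r1 ri : ℕ, r0 ≤ A ∧ r1 ≤ B ∧ ri ≤ G ∧
      r0 + r1 + ri + 1 = k := by
    refine ⟨min A (k - 1), min B (k - 1 - min A (k - 1)),
      k - 1 - min A (k - 1) - min B (k - 1 - min A (k - 1)), by omega, by omega, by omega, by omega⟩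
  obtain ⟨C0, hC0, hq⟩ := quant r0 r1 ri
  rw [hr] at hq
  have hrk : r0 + r1 + ri = k - 1 := by omega
  rw [hrk] at hq
  have hkm : ((k - 1 : ℕ) : ℝ) = k - 1 := by
    push_cast [Nat.cast_sub (show 1 ≤ k from hk0)]
    ring
  rw [hkm] at hq
  -- the exponent
  set η : ℝ := ε / (1 + (1 + ε) * k) with hη
  have hden : 0 < 1 + (1 + ε) * k := by positivity
  have hη0 : 0 < η := div_pos hε hden
  have hηk : η * (1 + (1 + ε) * k) = ε := div_mul_cancel₀ _ hden.ne'
  have hηk1 : η * (k - 1) < 1 := by nlinarith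
  have hD : 0 < (k : ℝ) - (1 + η) * (k - 1) := by nlinarith
  have hexp : (1 + η) / ((k : ℝ) - (1 + η) * (k - 1)) ≤ 1 + ε := by
    rw [div_le_iff₀ hD]
    nlinarith [mul_pos hε hη0]
  refine (hq F (1 + η) (by linarith) (by linarith) ?_).mono hexp
  -- small heights
  obtain ⟨C, hC, hH⟩ := H η hη0
  -- the exponents are smaller
  have e0 : ((r0 + 1 : ℕ) : ℝ) / k < α := by
    rw [div_lt_iff₀ hkpos]
    push_cast
    have : (r0 : ℝ) ≤ A := by exact_mod_cast hr0
    linarith
  have e1 : ((r1 + 1 : ℕ) : ℝ) / k < β := by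
    rw [div_lt_iff₀ hkpos]
    push_cast
    have : (r1 : ℝ) ≤ B := by exact_mod_cast hr1
    linarith
  have e2 : ((ri + 1 : ℕ) : ℝ) / k < γ := by
    rw [div_lt_iff₀ hkpos]
    push_cast
    have : (ri : ℝ) ≤ G := by exact_mod_cast hri
    linarith
  obtain ⟨θ, hθ0, hθ1, hθ2, hθ3⟩ : ∃ θ : ℝ, 0 < θ ∧ ((r0 + 1 : ℕ) : ℝ) / k + θ ≤ α ∧
      ((r1 + 1 : ℕ) : ℝ) / k + θ ≤ β ∧ ((ri + 1 : ℕ) : ℝ) / k + θ ≤ γ := by
    refine ⟨min (α - ((r0 + 1 : ℕ) : ℝ) / k) (min (β - ((r1 + 1 : ℕ) : ℝ) / k)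
      (γ - ((ri + 1 : ℕ) : ℝ) / k)), ?_, ?_, ?_, ?_⟩
    · exact lt_min (by linarith) (lt_min (by linarith) (by linarith))
    · have := min_le_left (α - ((r0 + 1 : ℕ) : ℝ) / k) (min (β - ((r1 + 1 : ℕ) : ℝ) / k)
        (γ - ((ri + 1 : ℕ) : ℝ) / k))
      linarith
    · have := (min_le_right (α - ((r0 + 1 : ℕ) : ℝ) / k) (min (β - ((r1 + 1 : ℕ) : ℝ) / k)
        (γ - ((ri + 1 : ℕ) : ℝ) / k))).trans (min_le_left _ _)
      linarith
    · have := (min_le_right (α - ((r0 + 1 : ℕ) : ℝ) / k) (min (β - ((r1 + 1 : ℕ) : ℝ) / k)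
        (γ - ((ri + 1 : ℕ) : ℝ) / k))).trans (min_le_right _ _)
      linarith
  -- the bound for the small heights
  set Y : ℝ := max 1 (C0 ^ (1 / θ)) with hY
  refine ⟨max C Y, lt_max_of_lt_left hC, ?_⟩
  intro K _ _ hK a b c ha hb hc habc hT
  have hδN : 1 ≤ rootDisc K * conductor a b c :=
    one_le_mul_of_one_le_of_one_le (one_le_rootDisc K) (one_le_conductor ha hb hc habc)
  have hδNp : 1 ≤ (rootDisc K * conductor a b c) ^ (1 + η) := Real.one_le_rpow hδN (by linarith)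
  rcases le_or_gt (height a b c) Y with hle | hgt
  · calc height a b c ≤ Y := hle
      _ = Y * 1 := (mul_one _).symm
      _ ≤ max C Y * (rootDisc K * conductor a b c) ^ (1 + η) :=
          mul_le_mul (le_max_right _ _) hδNp zero_le_one (le_max_of_le_left hC.le)
  · have hH1 : 1 ≤ height a b c := (le_max_left _ _).trans hgt.le
    have hCθ : C0 ≤ height a b c ^ θ := by
      have h1 : C0 ^ (1 / θ) ≤ height a b c := (le_max_right _ _).trans hgt.le
      have h2 := Real.rpow_le_rpow (Real.rpow_nonneg hC0.le _) h1 hθ0.le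
      rwa [← Real.rpow_mul hC0.le, one_div_mul_cancel hθ0.ne', Real.rpow_one] at h2
    have hup : ∀ s t : ℝ, s + θ ≤ t → C0 * height a b c ^ s ≤ 1 * height a b c ^ t := by
      intro s t hst
      calc C0 * height a b c ^ s ≤ height a b c ^ θ * height a b c ^ s :=
            mul_le_mul_of_nonneg_right hCθ (Real.rpow_nonneg (height_pos _ _ _).le _)
        _ = height a b c ^ (θ + s) := (Real.rpow_add (height_pos _ _ _) _ _).symm
        _ ≤ height a b c ^ t := Real.rpow_le_rpow_of_exponent_le hH1 (by linarith)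
        _ = 1 * height a b c ^ t := (one_mul _).symm
    have hS : Shape 1 α β γ K a b c :=
      ⟨hT.1.trans (hup _ _ hθ1), hT.2.1.trans (hup _ _ hθ2), hT.2.2.trans (hup _ _ hθ3)⟩
    refine (hH K hK a b c ha hb hc habc hS).trans ?_
    exact mul_le_mul_of_nonneg_right (le_max_left _ _) (zero_le_one.trans hδNp)

end Pool.Agent.H34x.SL
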